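import Pool.Agent.Lib.MP_e0f6ac_lc.Defs

/-!
Reasoning in Boolean-valued structures: connectives, equality, pairs, numerals.
-/

open scoped symmDiff

namespace Pool.Agent.Lib.MP_e0f6ac_lc

variable {B : Type} [CompleteBooleanAlgebra B]

theorem dense_le {a c : B} (h : ∀ b, b ≠ ⊥ → b ≤ a → ∃ b', b' ≠ ⊥ ∧ b' ≤ b ∧ b' ≤ c) : a ≤ c := by
  by_contra hac
  have h1 : a ⊓ cᶜ ≠ ⊥ := by
    intro h0
    apply hac
    rwa [← disjoint_iff, disjoint_compl_right_iff] at h0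
  obtain ⟨b', hb', h2, h3⟩ := h _ h1 inf_le_left
  apply hb'
  have : b' ≤ c ⊓ cᶜ := le_inf h3 (h2.trans inf_le_right)
  simpa using this

theorem ex_of_le_iSup {ι : Sort*} {b : B} {f : ι → B} (hb : b ≠ ⊥) (h : b ≤ ⨆ i, f i) :
    ∃ i b', b' ≠ ⊥ ∧ b' ≤ b ∧ b' ≤ f i := by
  by_contra hcon
  apply hb
  have h1 : b = ⨆ i, b ⊓ f i := by rw [← inf_iSup_eq, inf_eq_left.mpr h]
  rw [h1, iSup_eq_bot]
  intro i
  by_contra h2
  exact hcon ⟨i, b ⊓ f i, h2, inf_le_left, inf_le_right⟩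

theorem exE {ι : Sort*} {b c : B} {f : ι → B} (h : b ≤ ⨆ i, f i)
    (k : ∀ i b', b' ≤ b → b' ≤ f i → b' ≤ c) : b ≤ c := by
  have h1 : b = ⨆ i, b ⊓ f i := by rw [← inf_iSup_eq, inf_eq_left.mpr h]
  rw [h1]
  exact iSup_le fun i => k i _ inf_le_left inf_le_right

theorem exI {ι : Sort*} {b : B} {f : ι → B} (i : ι) (h : b ≤ f i) : b ≤ ⨆ i, f i :=
  le_iSup_of_le i h

theorem orE {b a a' c : B} (h : b ≤ a ⊔ a') (k : ∀ b', b' ≤ b → b' ≤ a → b' ≤ c)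
    (k' : ∀ b', b' ≤ b → b' ≤ a' → b' ≤ c) : b ≤ c := by
  have h1 : b = (b ⊓ a) ⊔ (b ⊓ a') := by rw [← inf_sup_left, inf_eq_left.mpr h]
  rw [h1]
  exact sup_le (k _ inf_le_left inf_le_right) (k' _ inf_le_left inf_le_right)

theorem mp {b a c : B} (h : b ≤ a ⇨ c) (h' : b ≤ a) : b ≤ c :=
  (le_inf h h').trans himp_inf_le

theorem impI {b a c : B} (k : ∀ b', b' ≤ b → b' ≤ a → b' ≤ c) : b ≤ a ⇨ c :=
  le_himp_iff.mpr (k _ inf_le_left inf_le_right)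

theorem allE {ι : Sort*} {b : B} {f : ι → B} (h : b ≤ ⨅ i, f i) (i : ι) : b ≤ f i :=
  h.trans (iInf_le _ i)

theorem iffI {b a c : B} (k : ∀ b', b' ≤ b → b' ≤ a → b' ≤ c)
    (k' : ∀ b', b' ≤ b → b' ≤ c → b' ≤ a) : b ≤ a ⇔ c :=
  le_bihimp (k' _ inf_le_right inf_le_left) (k _ inf_le_right inf_le_left)

theorem iffE1 {b a c : B} (h : b ≤ a ⇔ c) (h' : b ≤ a) : b ≤ c :=
  (le_inf h' le_rfl).trans (le_bihimp_iff.mp h).2

theorem iffE2 {b a c : B} (h : b ≤ a ⇔ c) (h' : b ≤ c) : b ≤ a :=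
  (le_inf h' le_rfl).trans (le_bihimp_iff.mp h).1

theorem absurdB {b a c : B} (h : b ≤ a) (h' : b ≤ aᶜ) : b ≤ c := by
  have : b ≤ a ⊓ aᶜ := le_inf h h'
  rw [inf_compl_eq_bot] at this
  exact this.trans bot_le

theorem l1 {b a c : B} (h : b ≤ a ⊓ c) : b ≤ a := h.trans inf_le_left
theorem l2 {b a c : B} (h : b ≤ a ⊓ c) : b ≤ c := h.trans inf_le_right

/-- The finite von Neumann ordinals. -/
noncomputable def nat (k : ℕ) : ZFSet.{0} := ZFSet.mk (PSet.ofNat k)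

theorem nat_zero : nat 0 = ∅ := rfl

theorem nat_succ (k : ℕ) : nat (k + 1) = insert (nat k) (nat k) := rfl

theorem mem_nat {y : ZFSet.{0}} {k : ℕ} : y ∈ nat k ↔ ∃ j, j < k ∧ y = nat j := by
  induction k with
  | zero => simp [nat_zero]
  | succ k ih =>
    rw [nat_succ, ZFSet.mem_insert_iff, ih]
    constructor
    · rintro (h | ⟨j, hj, h⟩)
      · exact ⟨k, Nat.lt_succ_self k, h⟩
      · exact ⟨j, Nat.lt_succ_of_lt hj, h⟩
    · rintro ⟨j, hj, h⟩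
      rcases Nat.lt_succ_iff_lt_or_eq.mp hj with h' | h'
      · exact Or.inr ⟨j, h', h⟩
      · exact Or.inl (h' ▸ h)

theorem nat_inj {j k : ℕ} (h : nat j = nat k) : j = k := by
  rcases lt_trichotomy j k with h' | h' | h'
  · have : nat j ∈ nat k := mem_nat.mpr ⟨j, h', rfl⟩
    rw [h] at this
    exact absurd this (ZFSet.mem_irrefl _)
  · exact h'
  · have : nat k ∈ nat j := mem_nat.mpr ⟨k, h', rfl⟩
    rw [h] at this
    exact absurd this (ZFSet.mem_irrefl _)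

theorem mem_omega {y : ZFSet.{0}} : y ∈ ZFSet.omega ↔ ∃ k, y = nat k := by
  induction y using Quotient.inductionOn with
  | h y =>
    change ZFSet.mk y ∈ ZFSet.mk PSet.omega ↔ _
    rw [ZFSet.mk_mem_iff]
    constructor
    · rintro ⟨⟨k⟩, hk⟩
      exact ⟨k, ZFSet.sound hk⟩
    · rintro ⟨k, hk⟩
      exact ⟨⟨k⟩, ZFSet.exact hk⟩

/-- The properties of a Boolean-valued structure used in the arguments. -/
structure Good (S : Str B) where
  refl : ∀ x, S.eq x x = ⊤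
  symm : ∀ x y, S.eq x y ≤ S.eq y x
  trans : ∀ x y z, S.eq x y ⊓ S.eq y z ≤ S.eq x z
  meml : ∀ x y z, S.eq x y ⊓ S.mem x z ≤ S.mem y z
  memr : ∀ x y z, S.eq x y ⊓ S.mem z x ≤ S.mem z y
  ext : ∀ x y, S.sub x y ⊓ S.sub y x ≤ S.eq x y
  mkN : (ι : Type) → (ι → S.N) → (ι → B) → S.N
  mem_mkN : ∀ ι A v x, S.mem x (mkN ι A v) = ⨆ j, v j ⊓ S.eq x (A j)
  chk : ZFSet.{0} → S.N
  mem_chk : ∀ a x, S.mem x (chk a) = ⨆ y : a, S.eq x (chk y)
  chk_ne : ∀ a a', a ≠ a' → S.eq (chk a) (chk a') = ⊥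
  om_eq : ∀ x, S.mem x S.om = S.mem x (chk ZFSet.omega)

namespace Good

variable {S : Str B} (G : Good S)
include G

theorem rf {b : B} (x : S.N) : b ≤ S.eq x x := by rw [G.refl]; exact le_top

theorem sy {b : B} {x y : S.N} (h : b ≤ S.eq x y) : b ≤ S.eq y x := h.trans (G.symm _ _)

theorem tr {b : B} {x y z : S.N} (h : b ≤ S.eq x y) (h' : b ≤ S.eq y z) : b ≤ S.eq x z :=
  (le_inf h h').trans (G.trans _ _ _)

theorem ml {b : B} {x y z : S.N} (h : b ≤ S.eq x y) (h' : b ≤ S.mem x z) : b ≤ S.mem y z :=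
  (le_inf h h').trans (G.meml _ _ _)

theorem mr {b : B} {x y z : S.N} (h : b ≤ S.eq x y) (h' : b ≤ S.mem z x) : b ≤ S.mem z y :=
  (le_inf h h').trans (G.memr _ _ _)

omit G in
theorem subE {b : B} {x y z : S.N} (h : b ≤ S.sub x y) (h' : b ≤ S.mem z x) : b ≤ S.mem z y :=
  mp (allE h z) h'

omit G in
theorem subI {b : B} {x y : S.N} (k : ∀ z b', b' ≤ b → b' ≤ S.mem z x → b' ≤ S.mem z y) :
    b ≤ S.sub x y :=
  le_iInf fun z => impI (k z)

omit G in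
theorem subT {b : B} {x y z : S.N} (h : b ≤ S.sub x y) (h' : b ≤ S.sub y z) : b ≤ S.sub x z :=
  subI fun _ _ hb hw => subE (hb.trans h') (subE (hb.trans h) hw)

theorem sub_of_eq {b : B} {x y : S.N} (h : b ≤ S.eq x y) : b ≤ S.sub x y :=
  subI fun _ _ hb hw => G.mr (hb.trans h) hw

theorem extI {b : B} {x y : S.N} (h : b ≤ S.sub x y) (h' : b ≤ S.sub y x) : b ≤ S.eq x y :=
  (le_inf h h').trans (G.ext _ _)

theorem mkI {b : B} {ι : Type} {A : ι → S.N} {v : ι → B} {x : S.N} (j : ι) (h : b ≤ v j)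
    (h' : b ≤ S.eq x (A j)) : b ≤ S.mem x (G.mkN ι A v) := by
  rw [G.mem_mkN]; exact exI j (le_inf h h')

theorem mkE {b c : B} {ι : Type} {A : ι → S.N} {v : ι → B} {x : S.N}
    (h : b ≤ S.mem x (G.mkN ι A v))
    (k : ∀ j b', b' ≤ b → b' ≤ v j → b' ≤ S.eq x (A j) → b' ≤ c) : b ≤ c := by
  rw [G.mem_mkN] at h
  exact exE h fun j b' hb hj => k j b' hb (l1 hj) (l2 hj)

theorem chkI {b : B} {a y : ZFSet.{0}} (h : y ∈ a) : b ≤ S.mem (G.chk y) (G.chk a) := by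
  rw [G.mem_chk]; exact exI (⟨y, h⟩ : a) (G.rf _)

theorem chkE {b c : B} {a : ZFSet.{0}} {x : S.N} (h : b ≤ S.mem x (G.chk a))
    (k : ∀ y b', y ∈ a → b' ≤ b → b' ≤ S.eq x (G.chk y) → b' ≤ c) : b ≤ c := by
  rw [G.mem_chk] at h
  exact exE h fun y b' hb hy => k y b' y.2 hb hy

theorem chk_eqE {b c : B} {a a' : ZFSet.{0}} (h : b ≤ S.eq (G.chk a) (G.chk a'))
    (k : a = a' → b ≤ c) : b ≤ c := by
  by_cases haa : a = a'
  · exact k haa
  · rw [G.chk_ne _ _ haa] at h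
    exact h.trans bot_le

/-! Doubletons and pairs -/

theorem dbl_congr {b : B} {w a c w' a' c' : S.N} (h : b ≤ S.dbl w a c) (hw : b ≤ S.eq w w')
    (ha : b ≤ S.eq a a') (hc : b ≤ S.eq c c') : b ≤ S.dbl w' a' c' := by
  refine le_iInf fun t => iffI (fun b' hb ht => ?_) (fun b' hb ht => ?_)
  · have h1 := iffE1 (allE (hb.trans h) t) (G.mr (G.sy (hb.trans hw)) ht)
    refine orE h1 (fun b2 hb2 h2 => le_sup_of_le_left ?_) (fun b2 hb2 h2 => le_sup_of_le_right ?_)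
    · exact G.tr h2 (hb2.trans (hb.trans ha))
    · exact G.tr h2 (hb2.trans (hb.trans hc))
  · refine G.mr (hb.trans hw) (iffE2 (allE (hb.trans h) t) ?_)
    refine orE ht (fun b2 hb2 h2 => le_sup_of_le_left ?_) (fun b2 hb2 h2 => le_sup_of_le_right ?_)
    · exact G.tr h2 (G.sy (hb2.trans (hb.trans ha)))
    · exact G.tr h2 (G.sy (hb2.trans (hb.trans hc)))

theorem dbl_uniq {b : B} {w w' a c : S.N} (h : b ≤ S.dbl w a c) (h' : b ≤ S.dbl w' a c) :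
    b ≤ S.eq w w' :=
  G.extI (subI fun t _ hb ht => iffE2 (allE (hb.trans h') t) (iffE1 (allE (hb.trans h) t) ht))
    (subI fun t _ hb ht => iffE2 (allE (hb.trans h) t) (iffE1 (allE (hb.trans h') t) ht))

theorem dbl_left {b : B} {w a c : S.N} (h : b ≤ S.dbl w a c) : b ≤ S.mem a w :=
  iffE2 (allE h a) (le_sup_of_le_left (G.rf _))

theorem dbl_right {b : B} {w a c : S.N} (h : b ≤ S.dbl w a c) : b ≤ S.mem c w :=
  iffE2 (allE h c) (le_sup_of_le_right (G.rf _))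

omit G in
theorem dbl_mem {b : B} {w a c t : S.N} (h : b ≤ S.dbl w a c) (ht : b ≤ S.mem t w) :
    b ≤ S.eq t a ⊔ S.eq t c :=
  iffE1 (allE h t) ht

/-- The name of the doubleton. -/
def dblN (a c : S.N) : S.N := G.mkN Bool (fun i => cond i a c) fun _ => ⊤

theorem dbl_dblN {b : B} (a c : S.N) : b ≤ S.dbl (G.dblN a c) a c := by
  refine le_iInf fun t => iffI (fun b' _ ht => ?_) (fun b' _ ht => ?_)
  · refine G.mkE ht fun j b2 _ _ hj => ?_
    cases j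
    · exact le_sup_of_le_right hj
    · exact le_sup_of_le_left hj
  · exact orE ht (fun b2 _ h2 => G.mkI true le_top h2) (fun b2 _ h2 => G.mkI false le_top h2)

theorem pr_congr {b : B} {z a c z' a' c' : S.N} (h : b ≤ S.pr z a c) (hz : b ≤ S.eq z z')
    (ha : b ≤ S.eq a a') (hc : b ≤ S.eq c c') : b ≤ S.pr z' a' c' := by
  refine le_iInf fun t => iffI (fun b' hb ht => ?_) (fun b' hb ht => ?_)
  · have h1 := iffE1 (allE (hb.trans h) t) (G.mr (G.sy (hb.trans hz)) ht)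
    refine orE h1 (fun b2 hb2 h2 => le_sup_of_le_left ?_) (fun b2 hb2 h2 => le_sup_of_le_right ?_)
    · exact G.dbl_congr h2 (G.rf _) (hb2.trans (hb.trans ha)) (hb2.trans (hb.trans ha))
    · exact G.dbl_congr h2 (G.rf _) (hb2.trans (hb.trans ha)) (hb2.trans (hb.trans hc))
  · refine G.mr (hb.trans hz) (iffE2 (allE (hb.trans h) t) ?_)
    have ha' := G.sy (hb.trans ha)
    have hc' := G.sy (hb.trans hc)
    refine orE ht (fun b2 hb2 h2 => le_sup_of_le_left ?_) (fun b2 hb2 h2 => le_sup_of_le_right ?_)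
    · exact G.dbl_congr h2 (G.rf _) (hb2.trans ha') (hb2.trans ha')
    · exact G.dbl_congr h2 (G.rf _) (hb2.trans ha') (hb2.trans hc')

theorem pr_uniq {b : B} {z z' a c : S.N} (h : b ≤ S.pr z a c) (h' : b ≤ S.pr z' a c) :
    b ≤ S.eq z z' :=
  G.extI (subI fun t _ hb ht => iffE2 (allE (hb.trans h') t) (iffE1 (allE (hb.trans h) t) ht))
    (subI fun t _ hb ht => iffE2 (allE (hb.trans h) t) (iffE1 (allE (hb.trans h') t) ht))

/-- The name of the ordered pair. -/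
def prN (a c : S.N) : S.N := G.dblN (G.dblN a a) (G.dblN a c)

theorem pr_prN {b : B} (a c : S.N) : b ≤ S.pr (G.prN a c) a c := by
  refine le_iInf fun t => iffI (fun b' _ ht => ?_) (fun b' _ ht => ?_)
  · refine orE (dbl_mem (G.dbl_dblN _ _) ht) (fun b2 _ h2 => le_sup_of_le_left ?_)
      (fun b2 _ h2 => le_sup_of_le_right ?_)
    · exact G.dbl_congr (G.dbl_dblN _ _) (G.sy h2) (G.rf _) (G.rf _)
    · exact G.dbl_congr (G.dbl_dblN _ _) (G.sy h2) (G.rf _) (G.rf _)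
  · refine orE ht (fun b2 _ h2 => ?_) (fun b2 _ h2 => ?_)
    · exact G.ml (G.dbl_uniq (G.dbl_dblN _ _) h2) (G.dbl_left (G.dbl_dblN _ _))
    · exact G.ml (G.dbl_uniq (G.dbl_dblN _ _) h2) (G.dbl_right (G.dbl_dblN _ _))

theorem pr_inj1 {b : B} {z a c a' c' : S.N} (h : b ≤ S.pr z a c) (h' : b ≤ S.pr z a' c') :
    b ≤ S.eq a a' := by
  have h1 : b ≤ S.mem (G.dblN a a) z := iffE2 (allE h _) (le_sup_of_le_left (G.dbl_dblN _ _))
  have h2 := iffE1 (allE h' _) h1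
  have key : ∀ b2 e, b2 ≤ S.dbl (G.dblN a a) a' e → b2 ≤ S.eq a a' := by
    intro b2 e h3
    have h4 := dbl_mem (G.dbl_dblN a a) (G.dbl_left h3)
    rw [sup_idem] at h4
    exact G.sy h4
  exact orE h2 (fun b2 _ h3 => key b2 _ h3) (fun b2 _ h3 => key b2 _ h3)

theorem pr_aux {b : B} {z a c a' c' : S.N} (h : b ≤ S.pr z a c) (h' : b ≤ S.pr z a' c') :
    b ≤ S.eq c a' ⊔ S.eq c c' := by
  have h1 : b ≤ S.mem (G.dblN a c) z := iffE2 (allE h _) (le_sup_of_le_right (G.dbl_dblN _ _))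
  have h2 := iffE1 (allE h' _) h1
  refine orE h2 (fun b2 _ h3 => ?_) (fun b2 _ h3 => ?_)
  · have h4 := dbl_mem h3 (G.dbl_right (G.dbl_dblN a c))
    rw [sup_idem] at h4
    exact le_sup_of_le_left h4
  · exact dbl_mem h3 (G.dbl_right (G.dbl_dblN a c))

theorem pr_inj2 {b : B} {z a c a' c' : S.N} (h : b ≤ S.pr z a c) (h' : b ≤ S.pr z a' c') :
    b ≤ S.eq c c' := by
  refine orE (G.pr_aux h h') (fun b2 hb2 h2 => ?_) (fun b2 _ h2 => h2)
  refine orE (hb2.trans (G.pr_aux h' h)) (fun b3 hb3 h3 => ?_) (fun b3 _ h3 => G.sy h3)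
  have h4 := (hb3.trans hb2).trans (G.pr_inj1 h h')
  exact G.tr (hb3.trans h2) (G.tr (G.sy h4) (G.sy h3))

theorem app_congr {b : B} {f a c a' c' : S.N} (h : b ≤ S.app f a c)
    (ha : b ≤ S.eq a a') (hc : b ≤ S.eq c c') : b ≤ S.app f a' c' :=
  exE h fun z _ hb hz =>
    exI z (le_inf (l1 hz) (G.pr_congr (l2 hz) (G.rf _) (hb.trans ha) (hb.trans hc)))

omit G in
theorem fnE {b : B} {f a c c' : S.N} (hf : b ≤ S.fn f) (h : b ≤ S.app f a c)
    (h' : b ≤ S.app f a c') : b ≤ S.eq c c' :=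
  mp (allE (allE (allE hf a) c) c') (le_inf h h')

theorem appI {b : B} {ι : Type} {A C : ι → S.N} {v : ι → B} (j : ι) (h : b ≤ v j) :
    b ≤ S.app (G.mkN ι (fun i => G.prN (A i) (C i)) v) (A j) (C j) :=
  exI (G.prN (A j) (C j)) (le_inf (G.mkI j h (G.rf _)) (G.pr_prN _ _))

theorem appE {b c : B} {ι : Type} {A C : ι → S.N} {v : ι → B} {x y : S.N}
    (h : b ≤ S.app (G.mkN ι (fun i => G.prN (A i) (C i)) v) x y)
    (k : ∀ j b', b' ≤ b → b' ≤ v j → b' ≤ S.eq x (A j) → b' ≤ S.eq y (C j) → b' ≤ c) :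
    b ≤ c := by
  refine exE h fun z b1 hb1 hz => G.mkE (l1 hz) fun j b2 hb2 hv hj => ?_
  have h1 : b2 ≤ S.pr z (A j) (C j) := G.pr_congr (G.pr_prN _ _) (G.sy hj) (G.rf _) (G.rf _)
  have h2 : b2 ≤ S.pr z x y := hb2.trans (l2 hz)
  exact k j b2 (hb2.trans hb1) hv (G.pr_inj1 h2 h1) (G.pr_inj2 h2 h1)

/-! Numerals -/

/-- The name of a natural number. -/
noncomputable def num (k : ℕ) : S.N := G.chk (nat k)

theorem omI {b : B} (k : ℕ) : b ≤ S.mem (G.num k) S.om := by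
  rw [G.om_eq]; exact G.chkI (mem_omega.mpr ⟨k, rfl⟩)

theorem omE {b c : B} {x : S.N} (h : b ≤ S.mem x S.om)
    (k : ∀ j b', b' ≤ b → b' ≤ S.eq x (G.num j) → b' ≤ c) : b ≤ c := by
  rw [G.om_eq] at h
  refine G.chkE h fun y b' hy hb hx => ?_
  obtain ⟨j, rfl⟩ := mem_omega.mp hy
  exact k j b' hb hx

theorem numI {b : B} {j k : ℕ} (h : j < k) : b ≤ S.mem (G.num j) (G.num k) :=
  G.chkI (mem_nat.mpr ⟨j, h, rfl⟩)

theorem numE {b c : B} {x : S.N} {n : ℕ} (h : b ≤ S.mem x (G.num n))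
    (k : ∀ j b', j < n → b' ≤ b → b' ≤ S.eq x (G.num j) → b' ≤ c) : b ≤ c := by
  refine G.chkE h fun y b' hy hb hx => ?_
  obtain ⟨j, hj, rfl⟩ := mem_nat.mp hy
  exact k j b' hj hb hx

theorem num_eqE {b c : B} {j k : ℕ} (h : b ≤ S.eq (G.num j) (G.num k))
    (hk : j = k → b ≤ c) : b ≤ c :=
  G.chk_eqE h fun e => hk (nat_inj e)

end Good

end Pool.Agent.Lib.MP_e0f6ac_lc
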