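import Pool.Agent.Lib.MP_e0f6ac_lc.Basic

/-!
The Cohen algebra: regular open subsets of the Cantor set.
-/

open TopologicalSpace

namespace Pool.Agent.Lib.MP_e0f6ac_lc

/-- The regular open subsets of the Cantor set. -/
def Cohen : Type := Heyting.Regular (Opens (ℕ → Bool))

noncomputable instance cohenCBA : CompleteBooleanAlgebra Cohen :=
  { (inferInstance : BooleanAlgebra (Heyting.Regular (Opens (ℕ → Bool)))) with
    sSup := fun s => Heyting.Regular.toRegular (sSup (Heyting.Regular.val '' s))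
    isLUB_sSup := fun _ => Heyting.Regular.gi.isLUB_of_u_image (isLUB_sSup _)
    sInf := fun s => Heyting.Regular.toRegular (sInf (Heyting.Regular.val '' s))
    isGLB_sInf := fun _ => Heyting.Regular.gi.isGLB_of_u_image (isGLB_sInf _) }

/-- The underlying set of an element of the Cohen algebra. -/
def Cohen.set (b : Cohen) : Set (ℕ → Bool) := (Heyting.Regular.val b : Opens (ℕ → Bool))

theorem Cohen.isOpen (b : Cohen) : IsOpen b.set := (Heyting.Regular.val b).2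

theorem Cohen.le_iff {a b : Cohen} : a ≤ b ↔ a.set ⊆ b.set := Iff.rfl

theorem Cohen.set_inf (a b : Cohen) : (a ⊓ b).set = a.set ∩ b.set := rfl

theorem Cohen.set_bot : (⊥ : Cohen).set = ∅ := rfl

theorem Cohen.set_top : (⊤ : Cohen).set = Set.univ := rfl

theorem Cohen.set_compl (a : Cohen) : (aᶜ).set = interior a.setᶜ :=
  Opens.coe_compl_eq_interior_compl

theorem Cohen.ne_bot_iff {a : Cohen} : a ≠ ⊥ ↔ a.set.Nonempty := by
  rw [Ne, ← le_bot_iff, Cohen.le_iff, Cohen.set_bot, Set.subset_empty_iff,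
    Set.nonempty_iff_ne_empty]

/-- A clopen set as an element of the Cohen algebra. -/
def Cohen.ofClopen (s : Set (ℕ → Bool)) (hs : IsClopen s) : Cohen :=
  ⟨⟨s, hs.isOpen⟩, by
    apply Opens.ext
    rw [Opens.coe_compl_eq_interior_compl, Opens.coe_compl_eq_interior_compl]
    change interior (interior sᶜ)ᶜ = s
    rw [hs.compl.isOpen.interior_eq, compl_compl, hs.isOpen.interior_eq]⟩

theorem Cohen.set_ofClopen (s : Set (ℕ → Bool)) (hs : IsClopen s) :
    (Cohen.ofClopen s hs).set = s := rfl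

theorem isClopen_coord (n : ℕ) (c : Bool) : IsClopen {x : ℕ → Bool | x n = c} := by
  have h : IsClopen ((fun x : ℕ → Bool => x n) ⁻¹' {c}) :=
    (isClopen_discrete {c}).preimage (continuous_apply n)
  exact h

theorem isClopen_cyl (x : ℕ → Bool) (n : ℕ) : IsClopen (PiNat.cylinder x n) := by
  have : PiNat.cylinder x n = ⋂ i ∈ Finset.range n, {y : ℕ → Bool | y i = x i} := by
    ext y; simp [PiNat.mem_cylinder_iff]
  rw [this]
  exact isClopen_biInter_finset fun i _ => isClopen_coord i (x i)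

theorem exists_cyl {s : Set (ℕ → Bool)} (hs : IsOpen s) {x : ℕ → Bool} (hx : x ∈ s) :
    ∃ n, PiNat.cylinder x n ⊆ s := by
  obtain ⟨_, ⟨y, n, rfl⟩, h1, h2⟩ :=
    (PiNat.isTopologicalBasis_cylinders fun _ : ℕ => Bool).exists_subset_of_mem_open hx hs
  refine ⟨n, ?_⟩
  rw [PiNat.mem_cylinder_iff_eq.1 h1]
  exact h2

instance : Nontrivial Cohen :=
  ⟨⟨⊤, ⊥, Cohen.ne_bot_iff.mpr ⟨fun _ => true, trivial⟩⟩⟩

theorem cohen_dense : ∃ D : ℕ → Cohen, ∀ b, b ≠ ⊥ → ∃ i, D i ≠ ⊥ ∧ D i ≤ b := by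
  classical
  obtain ⟨r, hr⟩ := exists_surjective_nat (Finset ℕ × ℕ)
  refine ⟨fun i => Cohen.ofClopen _ (isClopen_cyl (fun n => decide (n ∈ (r i).1)) (r i).2),
    fun b hb => ?_⟩
  obtain ⟨x, hx⟩ := Cohen.ne_bot_iff.mp hb
  obtain ⟨n, hn⟩ := exists_cyl b.isOpen hx
  obtain ⟨i, hi⟩ := hr ((Finset.range n).filter fun j => x j = true, n)
  refine ⟨i, Cohen.ne_bot_iff.mpr ⟨_, PiNat.self_mem_cylinder _ _⟩, Cohen.le_iff.mpr ?_⟩
  rw [Cohen.set_ofClopen, hi]
  intro y hy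
  apply hn
  intro j hj
  rw [hy j hj]
  simp [hj]

theorem cohen_generic : ∃ g : ℕ → Cohen,
    ∀ b, b ≠ ⊥ → ∀ N, ∃ n, N ≤ n ∧ b ⊓ g n ≠ ⊥ ∧ b ⊓ (g n)ᶜ ≠ ⊥ := by
  refine ⟨fun n => Cohen.ofClopen _ (isClopen_coord n true), fun b hb N => ?_⟩
  obtain ⟨x, hx⟩ := Cohen.ne_bot_iff.mp hb
  obtain ⟨k, hk⟩ := exists_cyl b.isOpen hx
  have hup : ∀ c, Function.update x (max N k) c ∈ b.set := by
    intro c
    apply hk
    intro j hj
    exact Function.update_of_ne (hj.trans_le (le_max_right _ _)).ne _ _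
  refine ⟨max N k, le_max_left _ _, Cohen.ne_bot_iff.mpr ⟨Function.update x (max N k) true, ?_⟩,
    Cohen.ne_bot_iff.mpr ⟨Function.update x (max N k) false, ?_⟩⟩
  · rw [Cohen.set_inf, Cohen.set_ofClopen]
    exact ⟨hup _, by simp⟩
  · rw [Cohen.set_inf, Cohen.set_compl, Cohen.set_ofClopen,
      (isClopen_coord _ true).compl.isOpen.interior_eq]
    exact ⟨hup _, by simp⟩

end Pool.Agent.Lib.MP_e0f6ac_lc
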