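import Mathlib

/-!
Definitions: the Boolean-valued universe, the two selection games written in the language of
set theory (evaluated in any Boolean-valued structure), and strong properness.
-/

open FirstOrder
open scoped symmDiff

namespace Pool.Agent.Lib.MP_e0f6ac_lc

/-- `B`-names: a name is a family of names with Boolean values. -/
inductive Name (B : Type) : Type 1
  | mk (ι : Type) (A : ι → Name B) (v : ι → B) : Name B

variable {B : Type} [CompleteBooleanAlgebra B]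

/-- Boolean value of `x = y`. -/
def Name.eqv : Name B → Name B → B
  | ⟨_, A, v⟩, ⟨_, A', v'⟩ =>
    (⨅ i, v i ⇨ ⨆ j, v' j ⊓ Name.eqv (A i) (A' j)) ⊓
      (⨅ j, v' j ⇨ ⨆ i, v i ⊓ Name.eqv (A i) (A' j))

/-- Boolean value of `x ∈ y`. -/
def Name.mem : Name B → Name B → B
  | x, ⟨_, A, v⟩ => ⨆ j, v j ⊓ x.eqv (A j)

/-- Canonical names for ground model sets. -/
def check : PSet.{0} → Name B
  | ⟨ι, A⟩ => ⟨ι, fun i => check (A i), fun _ => ⊤⟩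

/-- A `B`-valued structure for the language of set theory with a constant for `ω`. -/
structure Str (B : Type) where
  N : Type 1
  eq : N → N → B
  mem : N → N → B
  om : N

/-- The ground model. -/
def ground : Str Prop := ⟨ZFSet.{0}, fun x y => x = y, fun x y => x ∈ y, ZFSet.omega⟩

/-- The Boolean-valued universe over `B`. -/
def extension (B : Type) [CompleteBooleanAlgebra B] : Str B :=
  ⟨Name B, Name.eqv, Name.mem, check PSet.omega⟩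

namespace Str

variable (S : Str B)

/-- `a ⊆ b`. -/
def sub (a b : S.N) : B := ⨅ x, S.mem x a ⇨ S.mem x b

/-- `w = {a, b}`. -/
def dbl (w a b : S.N) : B := ⨅ t, S.mem t w ⇔ (S.eq t a ⊔ S.eq t b)

/-- `z = (a, b)` (Kuratowski pair). -/
def pr (z a b : S.N) : B := ⨅ w, S.mem w z ⇔ (S.dbl w a a ⊔ S.dbl w a b)

/-- `(a, b) ∈ f`. -/
def app (f a b : S.N) : B := ⨆ z, S.mem z f ⊓ S.pr z a b

/-- `f` is single-valued. -/
def fn (f : S.N) : B := ⨅ a, ⨅ b, ⨅ c, S.app f a b ⊓ S.app f a c ⇨ S.eq b c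

/-- `F` is finite: it lies in the image of some `n ∈ ω` under a single-valued relation. -/
def fin (F : S.N) : B :=
  ⨆ n, ⨆ f, S.mem n S.om ⊓ S.fn f ⊓ ⨅ x, S.mem x F ⇨ ⨆ i, S.mem i n ⊓ S.app f i x

/-- Every member of `C` is open in the topology on `X` generated by the base `τ`. -/
def opens (X τ C : S.N) : B :=
  ⨅ U, S.mem U C ⇨ S.sub U X ⊓ ⨅ x, S.mem x U ⇨ ⨆ V, S.mem V τ ⊓ S.mem x V ⊓ S.sub V U

/-- `K ⊆ ⋃ C`. -/
def cov (C K : S.N) : B := ⨅ x, S.mem x K ⇨ ⨆ U, S.mem U C ⊓ S.mem x U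

/-- `K` is a compact subset of `X`. -/
def cpt (X τ K : S.N) : B :=
  S.sub K X ⊓ ⨅ C, S.opens X τ C ⊓ S.cov C K ⇨ ⨆ F, S.sub F C ⊓ S.fin F ⊓ S.cov F K

/-- `C` is a `k`-cover of `X`. -/
def kcov (X τ C : S.N) : B :=
  S.opens X τ C ⊓ ⨅ K, S.cpt X τ K ⇨ ⨆ U, S.mem U C ⊓ S.sub K U

/-- `s` is an `ω`-sequence of `k`-covers (the moves of player I). -/
def play (X τ s : S.N) : B :=
  S.fn s ⊓ (⨅ z, S.mem z s ⇨ ⨆ n, ⨆ C, S.mem n S.om ⊓ S.pr z n C ⊓ S.kcov X τ C) ⊓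
    ⨅ n, S.mem n S.om ⇨ ⨆ C, S.app s n C

/-- `y = σ (s restricted to n + 1)`. -/
def rep (σ s n y : S.N) : B :=
  ⨆ h, (⨅ z, S.mem z h ⇔ (S.mem z s ⊓ ⨆ i, ⨆ C, (S.mem i n ⊔ S.eq i n) ⊓ S.pr z i C)) ⊓
    S.app σ h y

/-- II has a winning strategy; `L y C` says that `y` is a legal answer to `C`, and `E U y` says
that the answer `y` contributes the open set `U` to the final family `W`. -/
def wins (L E : S.N → S.N → B) (X τ : S.N) : B :=
  ⨆ σ, S.fn σ ⊓ ⨅ s, S.play X τ s ⇨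
    (⨅ n, S.mem n S.om ⇨ ⨆ C, ⨆ y, S.app s n C ⊓ S.rep σ s n y ⊓ L y C) ⊓
      ⨆ W, S.kcov X τ W ⊓ ⨅ U, S.mem U W ⇔ ⨆ n, ⨆ y, S.mem n S.om ⊓ S.rep σ s n y ⊓ E U y

/-- II has a winning strategy in the `k`-Rothberger game. -/
def winsR (X τ : S.N) : B := S.wins S.mem S.eq X τ

/-- II has a winning strategy in the `k`-Menger game. -/
def winsM (X τ : S.N) : B := S.wins (fun F C => S.sub F C ⊓ S.fin F) S.mem X τ

end Str

/-- `τ` is a topology on `X`. -/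
def IsTop (X τ : ZFSet.{0}) : Prop :=
  (∀ U ∈ τ, U ⊆ X) ∧ X ∈ τ ∧ (∀ U ∈ τ, ∀ V ∈ τ, U ∩ V ∈ τ) ∧ ∀ C ⊆ τ, ZFSet.sUnion C ∈ τ

/-- `H(θ)`: the sets hereditarily of cardinality less than `θ`. -/
def H (θ : Cardinal.{0}) : Type 1 := {x : ZFSet.{0} // x.Hereditarily fun y => y.card < θ}

/-- `H(θ)` as a structure for the language with one binary relation, read as `∈`. -/
instance memStr (θ : Cardinal.{0}) : Language.graph.Structure (H θ) where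
  RelMap | .adj => fun v => (v 0).1 ∈ (v 1).1

/-- `C` is a club of countable subsets of `α`. -/
def Club {α : Type 1} (C : Set (Set α)) : Prop :=
  (∀ M ∈ C, M.Countable) ∧ (∀ A : Set α, A.Countable → ∃ M ∈ C, A ⊆ M) ∧
    ∀ f : ℕ → Set α, Monotone f → (∀ n, f n ∈ C) → ⋃ n, f n ∈ C

/-- The forcing `B \ {⊥}`, coded as a set by any injection `e`, is strongly proper for
stationarily many countable elementary submodels of `H(θ)`, for all large regular `θ`. -/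
def StronglyProper (B : Type) [CompleteBooleanAlgebra B] : Prop :=
  ∀ e : B ↪ ZFSet.{0}, ∃ θ₀, ∀ θ : Cardinal.{0}, θ.IsRegular → θ₀ ≤ θ → ∀ C, Club C →
    ∃ M : Language.graph.ElementarySubstructure (H θ), (M : Set (H θ)) ∈ C ∧
      (∃ P ∈ M, ∀ x, x ∈ P.1 ↔ ∃ p, p ≠ ⊥ ∧ x = e p) ∧
      (∃ R ∈ M, ∀ x, x ∈ R.1 ↔ ∃ p q, p ≠ ⊥ ∧ p ≤ q ∧ x = (e p).pair (e q)) ∧
      ∀ p, p ≠ ⊥ → (∃ m ∈ M, m.1 = e p) → ∃ q, q ≠ ⊥ ∧ q ≤ p ∧
        ∀ r, r ≠ ⊥ → r ≤ q → ∃ r', r' ≠ ⊥ ∧ (∃ m ∈ M, m.1 = e r') ∧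
          ∀ r'', r'' ≠ ⊥ → r'' ≤ r' → (∃ m ∈ M, m.1 = e r'') → r'' ⊓ r ≠ ⊥

end Pool.Agent.Lib.MP_e0f6ac_lc
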