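import Pool.Agent.Lib.MP_e0f6ac_lc.Basic

/-!
The space: the Cantor set minus a point, coded as the nonempty subsets of `ω`.
-/

namespace Pool.Agent.Lib.MP_e0f6ac_lc

/-- The subset of `ω` with characteristic function `x`. -/
noncomputable def cx (x : ℕ → Bool) : ZFSet.{0} :=
  ZFSet.sep (fun y => ∃ n, x n = true ∧ y = nat n) ZFSet.omega

theorem nat_mem_cx {x : ℕ → Bool} {n : ℕ} : nat n ∈ cx x ↔ x n = true := by
  unfold cx
  rw [ZFSet.mem_sep]
  constructor
  · rintro ⟨_, m, hm, e⟩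
    rw [nat_inj e]; exact hm
  · intro h
    exact ⟨mem_omega.mpr ⟨n, rfl⟩, n, h, rfl⟩

theorem cx_inj {x y : ℕ → Bool} (h : cx x = cx y) : x = y := by
  funext n
  have h1 : x n = true ↔ y n = true := by rw [← nat_mem_cx, ← nat_mem_cx, h]
  cases hx : x n <;> cases hy : y n <;> simp_all

/-- The nonzero points of the Cantor set. -/
def Pt : Type := {x : ℕ → Bool // ∃ n, x n = true}

/-- The underlying set of the space. -/
noncomputable def spX : ZFSet.{0} := ZFSet.range fun x : Pt => cx x.1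

theorem mem_spX {y : ZFSet.{0}} : y ∈ spX ↔ ∃ x : Pt, cx x.1 = y := ZFSet.mem_range

theorem cx_mem_spX {x : ℕ → Bool} : cx x ∈ spX ↔ ∃ n, x n = true := by
  rw [mem_spX]
  constructor
  · rintro ⟨y, hy⟩
    rw [← cx_inj hy]; exact y.2
  · intro h
    exact ⟨⟨x, h⟩, rfl⟩

/-- The topology of the space. -/
noncomputable def spT : ZFSet.{0} :=
  ZFSet.sep (fun U => IsOpen {x : ℕ → Bool | cx x ∈ U}) spX.powerset

theorem mem_spT {U : ZFSet.{0}} : U ∈ spT ↔ U ⊆ spX ∧ IsOpen {x : ℕ → Bool | cx x ∈ U} := by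
  unfold spT
  rw [ZFSet.mem_sep, ZFSet.mem_powerset]

theorem isOpen_coord (n : ℕ) (c : Bool) : IsOpen {x : ℕ → Bool | x n = c} := by
  have h : IsOpen ((fun x : ℕ → Bool => x n) ⁻¹' {c}) :=
    (isOpen_discrete {c}).preimage (continuous_apply n)
  exact h

theorem isOpen_nonzero : IsOpen {x : ℕ → Bool | cx x ∈ spX} := by
  have : {x : ℕ → Bool | cx x ∈ spX} = ⋃ n, {x : ℕ → Bool | x n = true} := by
    ext x; simp [cx_mem_spX]
  rw [this]
  exact isOpen_iUnion fun n => isOpen_coord n true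

theorem isTop_sp : IsTop spX spT := by
  refine ⟨fun U hU => (mem_spT.mp hU).1, mem_spT.mpr ⟨fun _ h => h, isOpen_nonzero⟩, ?_, ?_⟩
  · intro U hU V hV
    rw [mem_spT] at hU hV ⊢
    refine ⟨fun z hz => hU.1 (ZFSet.mem_inter.mp hz).1, ?_⟩
    have : {x : ℕ → Bool | cx x ∈ U ∩ V} = {x | cx x ∈ U} ∩ {x | cx x ∈ V} := by
      ext x; simp
    rw [this]
    exact hU.2.inter hV.2
  · intro C hC
    rw [mem_spT]
    constructor
    · intro z hz
      obtain ⟨U, hU, hzU⟩ := ZFSet.mem_sUnion.mp hz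
      exact (mem_spT.mp (hC hU)).1 hzU
    · have : {x : ℕ → Bool | cx x ∈ ZFSet.sUnion C} = ⋃ U : C, {x | cx x ∈ (U : ZFSet)} := by
        ext x; simp
      rw [this]
      exact isOpen_iUnion fun U => (mem_spT.mp (hC U.2)).2

/-- The subbasic open set of points whose `n`-th coordinate is `c`. -/
noncomputable def basicV (n : ℕ) (c : Bool) : ZFSet.{0} :=
  ZFSet.sep (fun y => nat n ∈ y ↔ c = true) spX

theorem cx_mem_basicV {n : ℕ} {c : Bool} {x : ℕ → Bool} :
    cx x ∈ basicV n c ↔ cx x ∈ spX ∧ x n = c := by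
  unfold basicV
  rw [ZFSet.mem_sep, nat_mem_cx]
  cases c <;> cases x n <;> simp

theorem basicV_sub {n : ℕ} {c : Bool} : basicV n c ⊆ spX := ZFSet.sep_subset

theorem basicV_mem (n : ℕ) (c : Bool) : basicV n c ∈ spT := by
  refine mem_spT.mpr ⟨basicV_sub, ?_⟩
  have : {x : ℕ → Bool | cx x ∈ basicV n c} = {x | cx x ∈ spX} ∩ {x | x n = c} := by
    ext x; simp [cx_mem_basicV]
  rw [this]
  exact isOpen_nonzero.inter (isOpen_coord n c)

end Pool.Agent.Lib.MP_e0f6ac_lc
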