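import Pool.Agent.Lib.MP_e0f6ac_lc.Topo
import Pool.Agent.Lib.MP_e0f6ac_lc.Space

/-!
In a Boolean-valued model over an algebra with a countable dense set that adds a new real,
II has no winning strategy on the ground model space.
-/

open scoped symmDiff

namespace Pool.Agent.Lib.MP_e0f6ac_lc

variable {B : Type} [CompleteBooleanAlgebra B]

/-- A finite binary word: the values below `len` of the characteristic function of `s`. -/
abbrev Wd : Type := Finset ℕ × ℕ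

/-- An enumeration of the finite words. -/
noncomputable def wd : ℕ → Wd := Classical.choose (exists_surjective_nat Wd)

theorem wd_surj : Function.Surjective wd := Classical.choose_spec (exists_surjective_nat Wd)

/-- The value of `z n = true`, where `z` is the word `p` followed by the generic real. -/
noncomputable def zval (g : ℕ → B) (p : Wd) (n : ℕ) : B :=
  if n < p.2 then (if n ∈ p.1 then ⊤ else ⊥) else g n

/-- The value of `z n ≠ c`. -/
noncomputable def dif1 (g : ℕ → B) (p : Wd) (n : ℕ) (c : Bool) : B :=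
  if c = true then (zval g p n)ᶜ else zval g p n

/-- The value of: `x` and `z` differ below `m`. -/
noncomputable def dif (g : ℕ → B) (p : Wd) (m : ℕ) (x : ℕ → Bool) : B :=
  ⨆ n, ⨆ _ : n < m, dif1 g p n (x n)

theorem dif_mono (g : ℕ → B) (p : Wd) {m m' : ℕ} (h : m ≤ m') (x : ℕ → Bool) :
    dif g p m x ≤ dif g p m' x :=
  iSup_le fun n => iSup_le fun hn => exI n (exI (hn.trans_le h) le_rfl)

theorem dif_top {g : ℕ → B} (hg : ∀ b, b ≠ ⊥ → ∀ N, ∃ n, N ≤ n ∧ b ⊓ g n ≠ ⊥ ∧ b ⊓ (g n)ᶜ ≠ ⊥)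
    (p : Wd) (x : ℕ → Bool) (b : B) : b ≤ ⨆ m, dif g p m x := by
  refine dense_le fun b1 hb1 _ => ?_
  obtain ⟨n, hn, h1, h2⟩ := hg b1 hb1 p.2
  have hz : zval g p n = g n := if_neg (not_lt.mpr hn)
  refine ⟨b1 ⊓ dif1 g p n (x n), ?_, inf_le_left,
    exI (n + 1) (exI n (exI (Nat.lt_succ_self n) inf_le_right))⟩
  unfold dif1
  rw [hz]
  split_ifs
  · exact h2
  · exact h1

theorem decide_upto (z : ℕ → B) (m : ℕ) {b : B} (hb : b ≠ ⊥) :
    ∃ (a : Finset ℕ) (b' : B), b' ≠ ⊥ ∧ b' ≤ b ∧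
      ∀ n, n < m → b' ≤ if n ∈ a then z n else (z n)ᶜ := by
  classical
  induction m with
  | zero => exact ⟨∅, b, hb, le_rfl, fun n hn => absurd hn (Nat.not_lt_zero n)⟩
  | succ m ih =>
    obtain ⟨a, b1, hb1, hle, ha⟩ := ih
    by_cases h : b1 ⊓ z m = ⊥
    · refine ⟨a.erase m, b1, hb1, hle, fun n hn => ?_⟩
      rcases Nat.lt_succ_iff_lt_or_eq.mp hn with h' | rfl
      · simpa [h'.ne] using ha n h'
      · rw [if_neg (Finset.notMem_erase _ _)]
        exact le_compl_iff_disjoint_right.mpr (disjoint_iff.mpr h)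
    · refine ⟨insert m a, b1 ⊓ z m, h, inf_le_left.trans hle, fun n hn => ?_⟩
      rcases Nat.lt_succ_iff_lt_or_eq.mp hn with h' | rfl
      · have := ha n h'
        simp only [Finset.mem_insert, h'.ne, false_or]
        exact inf_le_left.trans this
      · rw [if_pos (Finset.mem_insert_self _ _)]
        exact inf_le_right

/-- Extension of words. -/
def WdExt (p q : Wd) : Prop := p.2 ≤ q.2 ∧ ∀ n, n < p.2 → (n ∈ q.1 ↔ n ∈ p.1)

theorem WdExt.refl (p : Wd) : WdExt p p := ⟨le_rfl, fun _ _ => Iff.rfl⟩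

theorem WdExt.trans {p q r : Wd} (h : WdExt p q) (h' : WdExt q r) : WdExt p r :=
  ⟨h.1.trans h'.1, fun n hn => (h'.2 n (hn.trans_le h.1)).trans (h.2 n hn)⟩

/-- Fusion: a ground model real that, densely often, agrees with some `z` up to the reply. -/
theorem fusion {Q : Type} [Countable Q] [Nonempty Q] (g : ℕ → B) (D : ℕ → B)
    (hD : ∀ b, b ≠ ⊥ → ∃ i, D i ≠ ⊥ ∧ D i ≤ b) (b₀ : B) (R : Q → ℕ → ℕ → B)
    (hR : ∀ q s, b₀ ≤ ⨆ m, R q s m) :
    ∃ x : Pt, ∀ q, b₀ ≤ ⨆ s, ⨆ m, R q s m ⊓ (dif g (wd s) m x.1)ᶜ := by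
  classical
  have step : ∀ (p : Wd) (iq : ℕ × Q), ∃ p' : Wd, WdExt p p' ∧ (D iq.1 ≠ ⊥ → D iq.1 ≤ b₀ →
      ∃ s m b', b' ≠ ⊥ ∧ b' ≤ D iq.1 ∧ m ≤ p'.2 ∧ b' ≤ R iq.2 s m ∧
        ∀ n, n < m → b' ≤ if n ∈ p'.1 then zval g (wd s) n else (zval g (wd s) n)ᶜ) := by
    rintro p ⟨i, q⟩
    by_cases h : D i ≠ ⊥ ∧ D i ≤ b₀
    · obtain ⟨s, hs⟩ := wd_surj p
      obtain ⟨m, b1, hb1, h1, h2⟩ := ex_of_le_iSup h.1 (h.2.trans (hR q s))
      obtain ⟨a, b2, hb2, h3, h4⟩ := decide_upto (zval g (wd s)) (max m p.2) hb1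
      refine ⟨(a, max m p.2), ⟨le_max_right _ _, fun n hn => ?_⟩, fun _ _ =>
        ⟨s, m, b2, hb2, h3.trans h1, le_max_left _ _, h3.trans h2,
          fun n hn => h4 n (hn.trans_le (le_max_left _ _))⟩⟩
      have h5 := h4 n (hn.trans_le (le_max_right _ _))
      rw [hs] at h5
      unfold zval at h5
      rw [if_pos hn] at h5
      by_cases e1 : n ∈ a <;> by_cases e2 : n ∈ p.1 <;> simp_all
    · exact ⟨p, WdExt.refl p, fun h1 h2 => absurd ⟨h1, h2⟩ h⟩
  choose nxt hext hspec using step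
  obtain ⟨r, hr⟩ := exists_surjective_nat (ℕ × Q)
  let p : ℕ → Wd := fun j => Nat.rec (({0}, 1) : Wd) (fun j pj => nxt pj (r j)) j
  have hp : ∀ j, p (j + 1) = nxt (p j) (r j) := fun _ => rfl
  have hmono : ∀ j j', j ≤ j' → WdExt (p j) (p j') := by
    intro j j' h
    induction j', h using Nat.le_induction with
    | base => exact WdExt.refl _
    | succ j' _ ih => rw [hp]; exact ih.trans (hext _ _)
  let x : ℕ → Bool := fun n => decide (∃ j, n < (p j).2 ∧ n ∈ (p j).1)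
  have hx : ∀ j n, n < (p j).2 → (x n = true ↔ n ∈ (p j).1) := by
    intro j n hn
    simp only [x, decide_eq_true_eq]
    constructor
    · rintro ⟨j', h1, h2⟩
      rcases le_total j j' with h | h
      · exact ((hmono j j' h).2 n hn).mp h2
      · exact ((hmono j' j h).2 n h1).mpr h2
    · intro h
      exact ⟨j, hn, h⟩
  refine ⟨⟨x, 0, (hx 0 0 Nat.one_pos).mpr (Finset.mem_singleton_self 0)⟩, fun q => ?_⟩
  refine dense_le fun b hb hb0 => ?_
  obtain ⟨i, hi, hib⟩ := hD b hb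
  obtain ⟨j, hj⟩ := hr (i, q)
  have h1 := hspec (p j) (r j)
  rw [← hp, hj] at h1
  obtain ⟨s, m, b', hb', h2, h3, h4, h5⟩ := h1 hi (hib.trans hb0)
  refine ⟨b', hb', h2.trans hib, exI s (exI m (le_inf h4 ?_))⟩
  unfold dif
  rw [compl_iSup]
  refine le_iInf fun n => ?_
  rw [compl_iSup]
  refine le_iInf fun hn => ?_
  have h6 := h5 n hn
  have h7 := hx (j + 1) n (hn.trans_le h3)
  unfold dif1
  by_cases e : n ∈ (p (j + 1)).1
  · rw [if_pos e] at h6
    rw [if_pos (h7.mpr e), compl_compl]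
    exact h6
  · rw [if_neg e] at h6
    rw [if_neg (fun h => e (h7.mp h))]
    exact h6

namespace Good

variable {S : Str B} (G : Good S)
include G

/-- The name of the open set of ground model points that differ from `z` below `m`. -/
noncomputable def opO (g : ℕ → B) (p : Wd) (m : ℕ) : S.N :=
  G.mkN Pt (fun x => G.chk (cx x.1)) fun x => dif g p m x.1

theorem opO_mono (g : ℕ → B) (p : Wd) (m m' : ℕ) (h : m ≤ m') :
    ⊤ ≤ S.sub (G.opO g p m) (G.opO g p m') :=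
  subI fun _ _ _ hz => G.mkE hz fun x _ _ hv hx => G.mkI x (hv.trans (dif_mono g p h _)) hx

theorem opO_mem {g : ℕ → B} {p : Wd} {m : ℕ} {x : Pt} {b : B}
    (h : b ≤ S.mem (G.chk (cx x.1)) (G.opO g p m)) : b ≤ dif g p m x.1 :=
  G.mkE h fun _ _ _ hv hy => G.chk_eqE hy fun e => by rw [cx_inj e]; exact hv

theorem opO_opn (g : ℕ → B) (p : Wd) (m : ℕ) :
    ⊤ ≤ S.opn (G.chk spX) (G.chk spT) (G.opO g p m) := by
  refine le_inf (subI fun z b _ hz => G.mkE hz fun x b1 _ _ hx =>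
    G.ml (G.sy hx) (G.chkI (mem_spX.mpr ⟨x, rfl⟩))) ?_
  refine le_iInf fun z => impI fun b _ hz => G.mkE hz fun x b1 _ hv hx => ?_
  refine exE hv fun n b2 hb2 h1 => exE h1 fun hn b3 hb3 h2 => ?_
  refine exI (G.chk (basicV n (x.1 n))) (le_inf (le_inf (G.chkI (basicV_mem _ _)) ?_) ?_)
  · exact G.ml (G.sy ((hb3.trans hb2).trans hx))
      (G.chkI (cx_mem_basicV.mpr ⟨mem_spX.mpr ⟨x, rfl⟩, rfl⟩))
  · refine subI fun w b4 hb4 hw => G.chkE hw fun y b5 hy hb5 hwy => ?_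
    obtain ⟨y', rfl⟩ := mem_spX.mp (basicV_sub hy)
    refine G.mkI y' (exI n (exI hn ?_)) hwy
    rw [(cx_mem_basicV.mp hy).2]
    exact (hb5.trans hb4).trans h2

theorem kcov_opO {g : ℕ → B}
    (hg : ∀ b, b ≠ ⊥ → ∀ N, ∃ n, N ≤ n ∧ b ⊓ g n ≠ ⊥ ∧ b ⊓ (g n)ᶜ ≠ ⊥) (p : Wd) :
    ⊤ ≤ S.kcov (G.chk spX) (G.chk spT) (G.fam (G.opO g p)) := by
  refine G.kcov_fam (G.opO_mono g p) (G.opO_opn g p) fun z b hz => ?_
  refine G.chkE hz fun y b1 hy _ hzy => ?_
  obtain ⟨x, rfl⟩ := mem_spX.mp hy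
  exact exE (dif_top hg p x.1 b1) fun m b2 hb2 hm => exI m (G.mkI x hm (hb2.trans hzy))

/-- The main lemma: II has no winning strategy in the extension. -/
theorem not_wins {g : ℕ → B}
    (hg : ∀ b, b ≠ ⊥ → ∀ N, ∃ n, N ≤ n ∧ b ⊓ g n ≠ ⊥ ∧ b ⊓ (g n)ᶜ ≠ ⊥) (D : ℕ → B)
    (hD : ∀ b, b ≠ ⊥ → ∃ i, D i ≠ ⊥ ∧ D i ≤ b) (L E : S.N → S.N → B)
    (hLE : ∀ (O : ℕ → S.N), (∀ m m', m ≤ m' → ⊤ ≤ S.sub (O m) (O m')) → ∀ b y C,
      b ≤ L y C → b ≤ S.eq C (G.fam O) → b ≤ ⨆ m, ⨅ U, E U y ⇨ S.sub U (O m))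
    (hE : ∀ b U y y', b ≤ E U y → b ≤ S.eq y y' → b ≤ E U y') :
    S.wins L E (G.chk spX) (G.chk spT) = ⊥ := by
  classical
  rw [← le_bot_iff]
  refine exE le_rfl fun σ b₀ _ hσ => ?_
  have hfn := l1 hσ
  have hwin := l2 hσ
  let C : ℕ → S.N := fun s => G.fam (G.opO g (wd s))
  have hC : ∀ s, ⊤ ≤ S.kcov (G.chk spX) (G.chk spT) (C s) := fun s => G.kcov_opO hg _
  let R : (ℕ → ℕ) → ℕ → ℕ → B := fun u k m =>
    ⨆ y, S.app σ (G.hist C u k) y ⊓ ⨅ U, E U y ⇨ S.sub U (G.opO g (wd (u k)) m)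
  have R_congr : ∀ u u' k, (∀ j, j ≤ k → u j = u' j) → R u k = R u' k := by
    intro u u' k h
    simp only [R]
    rw [G.hist_congr C h, h k le_rfl]
  -- Step 1: the strategy replies to ground model sequences of moves
  have step1 : ∀ u k, b₀ ≤ ⨆ m, R u k m := by
    intro u k
    let w : ℕ → ℕ → B := fun n p => if p = u n then ⊤ else ⊥
    have hw : ∀ n p p', p ≠ p' → w n p ⊓ w n p' = ⊥ := by
      intro n p p' h
      simp only [w]
      split_ifs with h1 h2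
      · exact absurd (h1.trans h2.symm) h
      all_goals simp
    have hwu : ∀ (b : B) n, b ≤ w n (u n) := fun b n => by simp [w]
    have hplay : b₀ ≤ S.play (G.chk spX) (G.chk spT) (G.seqN C w) :=
      G.play_seqN hC hw fun n => exI (u n) (hwu _ n)
    have h1 := mp (allE (l1 (mp (allE hwin _) hplay)) (G.num k)) (G.omI k)
    refine exE h1 fun C' b1 _ h2 => exE h2 fun y b2 _ h3 => ?_
    have h4 := G.app_seqN hw (G.rf _) (hwu _ k) (l1 (l1 h3))
    have h5 := G.rep_seqN hw (G.rf _) (fun i _ => hwu _ i) (l2 (l1 h3))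
    refine exE (hLE _ (G.opO_mono g (wd (u k))) b2 y C' (l2 h3) h4) fun m b3 hb3 h6 => ?_
    exact exI m (exI y (le_inf (hb3.trans h5) h6))
  -- Step 2: fusion
  obtain ⟨x, hx⟩ := fusion (Q := (ℕ →₀ ℕ) × ℕ) g D hD b₀
    (fun q s m => R (Function.update q.1 q.2 s) q.2 m) (fun q s => step1 _ _)
  let A : (ℕ → ℕ) → ℕ → ℕ → B := fun u k s =>
    ⨆ m, R (Function.update u k s) k m ⊓ (dif g (wd s) m x.1)ᶜ
  have A_congr : ∀ u u' k, (∀ j, j < k → u j = u' j) → A u k = A u' k := by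
    intro u u' k h
    funext s
    simp only [A]
    rw [R_congr (Function.update u k s) (Function.update u' k s) k]
    intro j hj
    rcases hj.lt_or_eq with h' | rfl
    · rw [Function.update_of_ne h'.ne, Function.update_of_ne h'.ne, h j h']
    · simp
  have hA : ∀ u k, b₀ ≤ ⨆ s, A u k s := by
    intro u k
    let u' : ℕ →₀ ℕ := Finsupp.onFinset (Finset.range k) (fun j => if j < k then u j else 0)
      (by intro j hj; by_contra h; simp at h; simp [h.not_gt] at hj)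
    rw [A_congr u u' k (fun j hj => by simp [u', hj])]
    exact hx (u', k)
  -- Step 3: the play of I in the extension
  let Pl : (ℕ → ℕ) → ℕ → B := fun u k => ⨅ i, ⨅ _ : i < k, disjointed (A u i) (u i)
  have hPl_le : ∀ u k i, i < k → Pl u k ≤ disjointed (A u i) (u i) := fun u k i hi =>
    iInf₂_le (f := fun i (_ : i < k) => disjointed (A u i) (u i)) i hi
  have hPl : ∀ k, b₀ ≤ ⨆ u, Pl u k := by
    intro k
    induction k with
    | zero => exact exI (fun _ => 0) (le_iInf fun i => le_iInf fun hi => absurd hi (by simp))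
    | succ k ih =>
      refine exE ih fun u b1 hb1 hu => ?_
      have h1 : b1 ≤ ⨆ s, disjointed (A u k) s := by
        rw [iSup_disjointed]; exact hb1.trans (hA u k)
      refine exE h1 fun s b2 hb2 hs => exI (Function.update u k s) ?_
      refine le_iInf fun i => le_iInf fun hi => ?_
      rw [A_congr (Function.update u k s) u i
        (fun j hj => Function.update_of_ne (by omega) _ _)]
      rcases Nat.lt_succ_iff_lt_or_eq.mp hi with h' | rfl
      · rw [Function.update_of_ne h'.ne]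
        exact allE (allE (hb2.trans hu) i) h'
      · rw [Function.update_self]
        exact hs
  have hPl_disj : ∀ k u u', (∃ i, i < k ∧ u i ≠ u' i) → Pl u k ⊓ Pl u' k = ⊥ := by
    intro k u u' h
    have hi := Nat.find_spec h
    set i := Nat.find h with hidef
    have hlt : ∀ j, j < i → u j = u' j := by
      intro j hj
      by_contra hne
      exact Nat.find_min h hj ⟨hj.trans hi.1, hne⟩
    have h1 : Pl u k ≤ disjointed (A u i) (u i) := hPl_le u k i hi.1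
    have h2 : Pl u' k ≤ disjointed (A u i) (u' i) := by
      rw [A_congr u u' i hlt]; exact hPl_le u' k i hi.1
    have h3 := (disjoint_disjointed (A u i)) hi.2
    exact le_bot_iff.mp ((inf_le_inf h1 h2).trans (disjoint_iff.mp h3).le)
  let w : ℕ → ℕ → B := fun n p => ⨆ u, ⨆ _ : u n = p, Pl u (n + 1)
  have hw : ∀ n p p', p ≠ p' → w n p ⊓ w n p' = ⊥ := by
    intro n p p' h
    rw [← le_bot_iff]
    refine exE inf_le_left fun u b1 hb1 h1 => exE h1 fun e b2 hb2 h2 => ?_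
    refine exE ((hb2.trans hb1).trans inf_le_right) fun u' b3 hb3 h3 =>
      exE h3 fun e' b4 hb4 h4 => ?_
    rw [← hPl_disj (n + 1) u u' ⟨n, Nat.lt_succ_self n, by rw [e, e']; exact h⟩]
    exact le_inf ((hb4.trans hb3).trans h2) h4
  have hwu : ∀ u k i, i ≤ k → Pl u (k + 1) ≤ w i (u i) := by
    intro u k i hi
    refine exI u (exI rfl (le_iInf fun j => le_iInf fun hj => ?_))
    exact hPl_le u (k + 1) j (by omega)
  have hplay : b₀ ≤ S.play (G.chk spX) (G.chk spT) (G.seqN C w) :=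
    G.play_seqN hC hw fun n => exE (hPl (n + 1)) fun u b1 _ hu =>
      exI (u n) (hu.trans (hwu u n n le_rfl))
  refine exE (l2 (mp (allE hwin _) hplay)) fun W b1 hb1 hW => ?_
  have hxX : b1 ≤ S.mem (G.chk (cx x.1)) (G.chk spX) := G.chkI (mem_spX.mpr ⟨x, rfl⟩)
  refine exE (mp (allE (l2 (l1 hW)) _) (G.cpt_sgl hxX)) fun U b2 hb2 hU => ?_
  have hxU : b2 ≤ S.mem (G.chk (cx x.1)) U := subE (l2 hU) (G.sglI _)
  refine exE (iffE1 (allE (hb2.trans (l2 hW)) U) (l1 hU)) fun n b3 hb3 h1 =>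
    exE h1 fun y b4 hb4 h2 => ?_
  refine G.omE (l1 (l1 h2)) fun k b5 hb5 hk => ?_
  have hb50 : b5 ≤ b₀ := hb5.trans (hb4.trans (hb3.trans (hb2.trans hb1)))
  refine exE (hb50.trans (hPl (k + 1))) fun u b6 hb6 hu => ?_
  have h3 : b6 ≤ S.app σ (G.hist C u k) y :=
    G.rep_seqN hw (hb6.trans hk) (fun i hi => hu.trans (hwu u k i hi))
      ((hb6.trans hb5).trans (l2 (l1 h2)))
  have h4 : b6 ≤ A u k (u k) :=
    (allE (allE hu k) (Nat.lt_succ_self k)).trans (disjointed_le _ _)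
  refine exE h4 fun m b7 hb7 h5 => ?_
  rw [Function.update_eq_self] at h5
  refine exE (l1 h5) fun y' b8 hb8 h6 => ?_
  have hb86 : b8 ≤ b6 := hb8.trans hb7
  have h7 : b8 ≤ S.eq y y' := fnE ((hb86.trans hb6).trans (hb50.trans hfn)) (hb86.trans h3) (l1 h6)
  have h8 : b8 ≤ E U y' := hE _ _ _ _ ((hb86.trans hb6).trans (hb5.trans (l2 h2))) h7
  have h9 := subE (mp (allE (l2 h6) U) h8)
    ((hb86.trans hb6).trans (hb5.trans (hb4.trans (hb3.trans hxU))))
  exact absurdB (G.opO_mem h9) (hb8.trans (l2 h5))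

theorem not_winsR {g : ℕ → B}
    (hg : ∀ b, b ≠ ⊥ → ∀ N, ∃ n, N ≤ n ∧ b ⊓ g n ≠ ⊥ ∧ b ⊓ (g n)ᶜ ≠ ⊥) (D : ℕ → B)
    (hD : ∀ b, b ≠ ⊥ → ∃ i, D i ≠ ⊥ ∧ D i ≤ b) :
    S.winsR (G.chk spX) (G.chk spT) = ⊥ := by
  refine G.not_wins hg D hD _ _ (fun O _ b y C hy hC => ?_) (fun b U y y' h h' => G.tr h h')
  refine G.famE (G.mr hC hy) fun m b1 _ hm => exI m (le_iInf fun U => impI fun b2 hb2 hU => ?_)
  exact G.sub_of_eq (G.tr hU (hb2.trans hm))

theorem not_winsM {g : ℕ → B}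
    (hg : ∀ b, b ≠ ⊥ → ∀ N, ∃ n, N ≤ n ∧ b ⊓ g n ≠ ⊥ ∧ b ⊓ (g n)ᶜ ≠ ⊥) (D : ℕ → B)
    (hD : ∀ b, b ≠ ⊥ → ∃ i, D i ≠ ⊥ ∧ D i ≤ b) :
    S.winsM (G.chk spX) (G.chk spT) = ⊥ :=
  G.not_wins hg D hD _ _
    (fun _ hO _ _ _ hy hC => G.fin_bounded hO (subT (l1 hy) (G.sub_of_eq hC)) (l2 hy))
    (fun _ _ _ _ h h' => G.mr h' h)

end Good

end Pool.Agent.Lib.MP_e0f6ac_lc
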