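import Pool.Agent.Lib.MP_e0f6ac_lc.Basic

/-!
The Boolean-valued universe satisfies the equality axioms, extensionality, and the expected
rules for canonical names.
-/

namespace Pool.Agent.Lib.MP_e0f6ac_lc

variable {B : Type} [CompleteBooleanAlgebra B]

namespace Name

theorem eqv_mk {ι ι' : Type} (A : ι → Name B) (v : ι → B) (A' : ι' → Name B) (v' : ι' → B) :
    eqv ⟨ι, A, v⟩ ⟨ι', A', v'⟩ = (⨅ i, v i ⇨ ⨆ j, v' j ⊓ eqv (A i) (A' j)) ⊓
      (⨅ j, v' j ⇨ ⨆ i, v i ⊓ eqv (A i) (A' j)) := rfl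

theorem mem_mk (x : Name B) {ι : Type} (A : ι → Name B) (v : ι → B) :
    mem x ⟨ι, A, v⟩ = ⨆ j, v j ⊓ eqv x (A j) := rfl

theorem eqv_refl (x : Name B) : eqv x x = ⊤ := by
  induction x with
  | mk ι A v ih =>
    rw [eqv_mk, ← top_le_iff]
    refine le_inf (le_iInf fun i => impI fun b _ hb => exI i (le_inf hb ?_))
      (le_iInf fun i => impI fun b _ hb => exI i (le_inf hb ?_))
    all_goals rw [ih]; exact le_top

theorem eqv_symm (x y : Name B) : eqv x y ≤ eqv y x := by
  induction x generalizing y with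
  | mk ι A v ih =>
    obtain ⟨ι', A', v'⟩ := y
    rw [eqv_mk, eqv_mk]
    refine le_inf (le_iInf fun j => impI fun b hb hj => ?_) (le_iInf fun i => impI fun b hb hi => ?_)
    · exact exE (mp (allE (l2 hb) j) hj) fun i b1 _ h => exI i (le_inf (l1 h) ((l2 h).trans (ih _ _)))
    · exact exE (mp (allE (l1 hb) i) hi) fun j b1 _ h => exI j (le_inf (l1 h) ((l2 h).trans (ih _ _)))

theorem eqv_trans (x y z : Name B) : eqv x y ⊓ eqv y z ≤ eqv x z := by
  induction x generalizing y z with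
  | mk ι A v ih =>
    obtain ⟨ι', A', v'⟩ := y
    obtain ⟨ι'', A'', v''⟩ := z
    rw [eqv_mk, eqv_mk, eqv_mk]
    refine le_inf (le_iInf fun i => impI fun b hb hi => ?_) (le_iInf fun k => impI fun b hb hk => ?_)
    · refine exE (mp (allE (l1 (l1 hb)) i) hi) fun j b1 hb1 h => ?_
      refine exE (mp (allE (l1 (l2 (hb1.trans hb))) j) (l1 h)) fun k b2 hb2 h' => ?_
      exact exI k (le_inf (l1 h') ((le_inf (hb2.trans (l2 h)) (l2 h')).trans (ih _ _ _)))
    · refine exE (mp (allE (l2 (l2 hb)) k) hk) fun j b1 hb1 h => ?_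
      refine exE (mp (allE (l2 (l1 (hb1.trans hb))) j) (l1 h)) fun i b2 hb2 h' => ?_
      exact exI i (le_inf (l1 h') ((le_inf (l2 h') (hb2.trans (l2 h))).trans (ih _ _ _)))

theorem mem_l (x y z : Name B) : eqv x y ⊓ mem x z ≤ mem y z := by
  obtain ⟨ι, A, v⟩ := z
  rw [mem_mk, mem_mk]
  refine exE inf_le_right fun j b hb h => exI j (le_inf (l1 h) ?_)
  exact (le_inf ((l1 hb).trans (eqv_symm _ _)) (l2 h)).trans (eqv_trans _ _ _)

theorem mem_r (x y z : Name B) : eqv x y ⊓ mem z x ≤ mem z y := by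
  obtain ⟨ι, A, v⟩ := x
  obtain ⟨ι', A', v'⟩ := y
  rw [mem_mk, mem_mk, eqv_mk]
  refine exE inf_le_right fun i b hb h => ?_
  refine exE (mp (allE (l1 (l1 hb)) i) (l1 h)) fun j b1 hb1 h' => exI j (le_inf (l1 h') ?_)
  exact (le_inf (hb1.trans (l2 h)) (l2 h')).trans (eqv_trans _ _ _)

theorem eqv_ext (x y : Name B) :
    (⨅ z, mem z x ⇨ mem z y) ⊓ (⨅ z, mem z y ⇨ mem z x) ≤ eqv x y := by
  obtain ⟨ι, A, v⟩ := x
  obtain ⟨ι', A', v'⟩ := y
  rw [eqv_mk]
  refine le_inf (le_iInf fun i => impI fun b hb hi => ?_) (le_iInf fun j => impI fun b hb hj => ?_)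
  · refine mp (allE (l1 hb) (A i)) ?_
    rw [mem_mk]
    exact exI i (le_inf hi (by rw [eqv_refl]; exact le_top))
  · have h1 : b ≤ mem (A' j) ⟨ι, A, v⟩ := by
      refine mp (allE (l2 hb) (A' j)) ?_
      rw [mem_mk]
      exact exI j (le_inf hj (by rw [eqv_refl]; exact le_top))
    rw [mem_mk] at h1
    exact exE h1 fun i b1 _ h => exI i (le_inf (l1 h) ((l2 h).trans (eqv_symm _ _)))

end Name

theorem check_mk {ι : Type} (A : ι → PSet.{0}) :
    (check ⟨ι, A⟩ : Name B) = ⟨ι, fun i => check (A i), fun _ => ⊤⟩ := rfl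

theorem check_equiv {a a' : PSet.{0}} (h : PSet.Equiv a a') :
    ⊤ ≤ (check a : Name B).eqv (check a') := by
  induction a generalizing a' with
  | mk ι A ih =>
    obtain ⟨ι', A'⟩ := a'
    rw [check_mk, check_mk, Name.eqv_mk]
    refine le_inf (le_iInf fun i => impI fun b _ _ => ?_) (le_iInf fun j => impI fun b _ _ => ?_)
    · obtain ⟨j, hj⟩ := h.1 i
      exact exI j (le_inf le_top (le_top.trans (ih i hj)))
    · obtain ⟨i, hi⟩ := h.2 j
      exact exI i (le_inf le_top (le_top.trans (ih i hi)))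

theorem check_not_equiv {a a' : PSet.{0}} (h : ¬ PSet.Equiv a a') :
    (check a : Name B).eqv (check a') ≤ ⊥ := by
  induction a generalizing a' with
  | mk ι A ih =>
    obtain ⟨ι', A'⟩ := a'
    rw [check_mk, check_mk, Name.eqv_mk]
    by_cases h1 : ∀ i, ∃ j, PSet.Equiv (A i) (A' j)
    · have h2 : ¬ ∀ j, ∃ i, PSet.Equiv (A i) (A' j) := fun h2 => h ⟨h1, h2⟩
      push Not at h2
      obtain ⟨j, hj⟩ := h2
      refine inf_le_right.trans ((iInf_le _ j).trans ?_)
      rw [top_himp]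
      exact iSup_le fun i => inf_le_right.trans (ih i (hj i))
    · push Not at h1
      obtain ⟨i, hi⟩ := h1
      refine inf_le_left.trans ((iInf_le _ i).trans ?_)
      rw [top_himp]
      exact iSup_le fun j => inf_le_right.trans (ih i (hi j))

theorem mem_check (a : PSet.{0}) (x : Name B) :
    x.mem (check a) = ⨆ y : ZFSet.mk a, x.eqv (check (y : ZFSet).out) := by
  obtain ⟨ι, A⟩ := a
  rw [check_mk, Name.mem_mk]
  apply le_antisymm
  · refine iSup_le fun i => exI ⟨ZFSet.mk (A i), ZFSet.mk_mem_iff.mpr (PSet.Mem.mk A i)⟩ ?_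
    have h : PSet.Equiv (A i) (ZFSet.mk (A i)).out := ZFSet.exact (ZFSet.mk_out _).symm
    exact (le_inf inf_le_right (le_top.trans (check_equiv h))).trans (Name.eqv_trans _ _ _)
  · refine iSup_le fun y => ?_
    have hy : ZFSet.mk (y : ZFSet).out ∈ ZFSet.mk ⟨ι, A⟩ := by rw [ZFSet.mk_out]; exact y.2
    obtain ⟨i, hi⟩ := ZFSet.mk_mem_iff.mp hy
    exact exI i (le_inf le_top
      ((le_inf le_rfl (le_top.trans (check_equiv hi))).trans (Name.eqv_trans _ _ _)))

/-- The Boolean-valued universe is a good structure. -/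
noncomputable def goodExt (B : Type) [CompleteBooleanAlgebra B] : Good (extension B) where
  refl := Name.eqv_refl
  symm := Name.eqv_symm
  trans := Name.eqv_trans
  meml := Name.mem_l
  memr := Name.mem_r
  ext := Name.eqv_ext
  mkN := Name.mk
  mem_mkN := fun _ A v x => Name.mem_mk x A v
  chk := fun a => check a.out
  mem_chk := fun a x => by
    have h := mem_check a.out x
    rw [ZFSet.mk_out] at h
    exact h
  chk_ne := fun a a' h => le_bot_iff.mp (check_not_equiv fun e => h (by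
    rw [← ZFSet.mk_out a, ← ZFSet.mk_out a']; exact ZFSet.sound e))
  om_eq := fun x => by
    have h1 := mem_check PSet.omega x
    have h2 := mem_check ZFSet.omega.out x
    rw [ZFSet.mk_out] at h2
    exact h1.trans h2.symm

/-- The ground model is a good structure. -/
noncomputable def goodGround : Good ground where
  refl := fun x => by simp [ground]
  symm := fun _ _ h => Eq.symm h
  trans := fun _ _ _ h => Eq.trans h.1 h.2
  meml := fun _ _ _ h => h.1 ▸ h.2
  memr := fun _ _ _ h => h.1 ▸ h.2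
  ext := fun x y h => by
    have h1 := h.1
    have h2 := h.2
    simp only [Str.sub, iInf_Prop_eq] at h1 h2
    exact ZFSet.ext fun z => ⟨h1 z, h2 z⟩
  mkN := fun ι A v => ZFSet.range fun j : {j : ι // v j} => A j.1
  mem_mkN := fun ι A v x => by
    apply propext
    rw [iSup_Prop_eq]
    refine ZFSet.mem_range.trans ⟨?_, ?_⟩
    · rintro ⟨j, hj⟩
      exact ⟨j.1, j.2, hj.symm⟩
    · rintro ⟨j, hj, e⟩
      exact ⟨⟨j, hj⟩, Eq.symm e⟩
  chk := fun a => a
  mem_chk := fun a x => by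
    apply propext
    rw [iSup_Prop_eq]
    exact ⟨fun h => ⟨⟨x, h⟩, rfl⟩, fun ⟨y, hy⟩ => by
      have hy' : x = y.1 := hy
      rw [hy']; exact y.2⟩
  chk_ne := fun a a' h => by
    apply propext
    exact ⟨h, False.elim⟩
  om_eq := fun _ => rfl

end Pool.Agent.Lib.MP_e0f6ac_lc
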