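import Pool.Agent.Lib.MP_e0f6ac_lc.Topo
import Pool.Agent.Lib.MP_e0f6ac_lc.Space
import Pool.Agent.Lib.MP_e0f6ac_lc.Names

/-!
In the ground model the space is hemicompact and not compact, so II wins both games.
-/

open scoped symmDiff

namespace Pool.Agent.Lib.MP_e0f6ac_lc

theorem prop_bihimp (p q : Prop) : (p ⇔ q) = (p ↔ q) := by
  apply propext
  rw [bihimp_def]
  exact ⟨fun h => ⟨h.2, h.1⟩, fun h => ⟨h.2, h.1⟩⟩

theorem g_mem (a b : ZFSet.{0}) : ground.mem a b = (a ∈ b) := rfl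
theorem g_eq (a b : ZFSet.{0}) : ground.eq a b = (a = b) := rfl
theorem g_om : ground.om = ZFSet.omega := rfl

theorem g_sub (a b : ZFSet.{0}) : ground.sub a b ↔ a ⊆ b := by
  simp only [Str.sub, iInf_Prop_eq, himp_iff_imp]
  exact Iff.rfl

theorem g_dbl (w a b : ZFSet.{0}) : ground.dbl w a b ↔ w = {a, b} := by
  simp only [Str.dbl, iInf_Prop_eq, prop_bihimp, sup_Prop_eq]
  rw [ZFSet.ext_iff]
  simp only [ZFSet.mem_pair]
  exact Iff.rfl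

theorem g_pr (z a b : ZFSet.{0}) : ground.pr z a b ↔ z = a.pair b := by
  simp only [Str.pr, iInf_Prop_eq, prop_bihimp, sup_Prop_eq]
  rw [ZFSet.ext_iff]
  refine forall_congr' fun w => ?_
  rw [g_dbl, g_dbl, ZFSet.pair_eq_singleton]
  unfold ZFSet.pair
  rw [ZFSet.mem_pair]
  exact Iff.rfl

theorem g_app (f a b : ZFSet.{0}) : ground.app f a b ↔ a.pair b ∈ f := by
  simp only [Str.app, iSup_Prop_eq, inf_Prop_eq]
  constructor
  · rintro ⟨z, h1, h2⟩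
    rw [g_pr] at h2
    rw [← h2]; exact h1
  · intro h
    exact ⟨a.pair b, h, (g_pr _ _ _).mpr rfl⟩

theorem g_fn (f : ZFSet.{0}) :
    ground.fn f ↔ ∀ a b c : ZFSet.{0}, a.pair b ∈ f → a.pair c ∈ f → b = c := by
  simp only [Str.fn, iInf_Prop_eq, himp_iff_imp, inf_Prop_eq]
  refine forall_congr' fun a => forall_congr' fun b => forall_congr' fun c => ?_
  rw [g_app, g_app, and_imp]
  exact Iff.rfl

theorem g_fin_range {k : ℕ} (U : Fin k → ZFSet.{0}) : ground.fin (ZFSet.range U) := by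
  simp only [Str.fin, iSup_Prop_eq, iInf_Prop_eq, himp_iff_imp, inf_Prop_eq]
  refine ⟨nat k, ZFSet.range fun i : Fin k => (nat i).pair (U i),
    ⟨mem_omega.mpr ⟨k, rfl⟩, (g_fn _).mpr ?_⟩, ?_⟩
  · intro a b c h1 h2
    obtain ⟨i, hi⟩ := ZFSet.mem_range.mp h1
    obtain ⟨j, hj⟩ := ZFSet.mem_range.mp h2
    rw [ZFSet.pair_inj] at hi hj
    have : i = j := Fin.ext (nat_inj (hi.1.trans hj.1.symm))
    rw [← hi.2, ← hj.2, this]
  · intro x hx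
    obtain ⟨i, rfl⟩ := ZFSet.mem_range.mp hx
    exact ⟨nat i, mem_nat.mpr ⟨i, i.2, rfl⟩, (g_app _ _ _).mpr (ZFSet.mem_range.mpr ⟨i, rfl⟩)⟩

theorem g_opn (X τ U : ZFSet.{0}) :
    ground.opn X τ U ↔ U ⊆ X ∧ ∀ x ∈ U, ∃ V ∈ τ, x ∈ V ∧ V ⊆ U := by
  simp only [Str.opn, iSup_Prop_eq, iInf_Prop_eq, himp_iff_imp, inf_Prop_eq]
  rw [g_sub]
  refine and_congr Iff.rfl (forall_congr' fun x => imp_congr Iff.rfl (exists_congr fun V => ?_))
  rw [g_sub, and_assoc]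
  exact Iff.rfl

theorem g_opens (X τ C : ZFSet.{0}) : ground.opens X τ C ↔ ∀ U ∈ C, ground.opn X τ U := by
  rw [Str.opens_eq, iInf_Prop_eq]
  exact Iff.rfl

theorem g_cov (C K : ZFSet.{0}) : ground.cov C K ↔ ∀ x ∈ K, ∃ U ∈ C, x ∈ U := by
  simp only [Str.cov, iSup_Prop_eq, iInf_Prop_eq, himp_iff_imp, inf_Prop_eq]
  exact Iff.rfl

theorem g_kcov (X τ C : ZFSet.{0}) : ground.kcov X τ C ↔
    ground.opens X τ C ∧ ∀ K : ZFSet.{0}, ground.cpt X τ K → ∃ U ∈ C, K ⊆ U := by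
  simp only [Str.kcov, iSup_Prop_eq, iInf_Prop_eq, himp_iff_imp, inf_Prop_eq]
  refine and_congr Iff.rfl (forall_congr' fun K => imp_congr Iff.rfl (exists_congr fun U => ?_))
  rw [g_sub]
  exact Iff.rfl

theorem g_rep (σ s n y : ZFSet.{0}) : ground.rep σ s n y ↔
    (ZFSet.sep (fun z => ∃ i C : ZFSet.{0}, (i ∈ n ∨ i = n) ∧ z = i.pair C) s).pair y ∈ σ := by
  simp only [Str.rep, iSup_Prop_eq, iInf_Prop_eq, prop_bihimp, inf_Prop_eq, sup_Prop_eq]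
  have key : ∀ h : ZFSet.{0}, (∀ z : ZFSet.{0}, ground.mem z h ↔ ground.mem z s ∧
      ∃ i C : ZFSet.{0}, (ground.mem i n ∨ ground.eq i n) ∧ ground.pr z i C) ↔
      h = ZFSet.sep (fun z => ∃ i C : ZFSet.{0}, (i ∈ n ∨ i = n) ∧ z = i.pair C) s := by
    intro h
    rw [ZFSet.ext_iff]
    refine forall_congr' fun z => ?_
    rw [ZFSet.mem_sep]
    simp only [g_pr, g_mem, g_eq]
  constructor
  · rintro ⟨h, h1, h2⟩
    rw [← (key h).mp h1]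
    exact (g_app _ _ _).mp h2
  · intro h
    exact ⟨_, (key _).mpr rfl, (g_app _ _ _).mpr h⟩

/-- The compact open pieces of the space. -/
noncomputable def spK (n : ℕ) : ZFSet.{0} := ZFSet.sep (fun y => ∃ i, i ≤ n ∧ nat i ∈ y) spX

theorem cx_mem_spK {n : ℕ} {x : ℕ → Bool} : cx x ∈ spK n ↔ ∃ i, i ≤ n ∧ x i = true := by
  unfold spK
  rw [ZFSet.mem_sep, cx_mem_spX]
  simp only [nat_mem_cx]
  exact ⟨fun h => h.2, fun ⟨i, hi, h⟩ => ⟨⟨i, h⟩, i, hi, h⟩⟩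

theorem spK_sub {n : ℕ} : spK n ⊆ spX := ZFSet.sep_subset

theorem spK_eq (n : ℕ) : {x : ℕ → Bool | cx x ∈ spK n} =
    ⋃ i ∈ Finset.range (n + 1), {x : ℕ → Bool | x i = true} := by
  ext x
  simp [cx_mem_spK]

theorem spK_opn (n : ℕ) : ground.opn spX spT (spK n) := by
  rw [g_opn]
  refine ⟨spK_sub, fun x hx => ⟨spK n, mem_spT.mpr ⟨spK_sub, ?_⟩, hx, fun _ h => h⟩⟩
  rw [spK_eq]
  exact isOpen_biUnion fun i _ => isOpen_coord i true

theorem isOpen_of_opn {U : ZFSet.{0}} (h : ground.opn spX spT U) :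
    IsOpen {x : ℕ → Bool | cx x ∈ U} := by
  rw [isOpen_iff_forall_mem_open]
  intro x hx
  obtain ⟨V, hV, h1, h2⟩ := ((g_opn _ _ _).mp h).2 (cx x) hx
  exact ⟨{y | cx y ∈ V}, fun y hy => h2 (show cx y ∈ V from hy), (mem_spT.mp hV).2, h1⟩

theorem spK_cpt (n : ℕ) : ground.cpt spX spT (spK n) := by
  simp only [Str.cpt, iSup_Prop_eq, iInf_Prop_eq, himp_iff_imp, inf_Prop_eq]
  refine ⟨(g_sub _ _).mpr spK_sub, ?_⟩
  rintro (C : ZFSet.{0}) ⟨h1, h2⟩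
  rw [g_opens] at h1
  rw [g_cov] at h2
  have hK : IsCompact {x : ℕ → Bool | cx x ∈ spK n} := by
    apply IsClosed.isCompact
    rw [spK_eq]
    refine isClosed_biUnion_finset fun i _ => ?_
    have h : IsClosed ((fun x : ℕ → Bool => x i) ⁻¹' {true}) :=
      (isClosed_discrete {true}).preimage (continuous_apply i)
    exact h
  obtain ⟨t, ht⟩ := hK.elim_finite_subcover (fun U : C => {x : ℕ → Bool | cx x ∈ (U : ZFSet)})
    (fun U => isOpen_of_opn (h1 _ U.2)) (by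
      intro x hx
      obtain ⟨U, hU, hxU⟩ := h2 (cx x) hx
      exact Set.mem_iUnion.mpr ⟨⟨U, hU⟩, hxU⟩)
  let e := t.equivFin
  refine ⟨ZFSet.range fun i : Fin t.card => ((e.symm i).1 : ZFSet), ⟨(g_sub _ _).mpr ?_,
    g_fin_range _⟩, (g_cov _ _).mpr ?_⟩
  · intro U hU
    obtain ⟨i, rfl⟩ := ZFSet.mem_range.mp hU
    exact (e.symm i).1.2
  · intro y hy
    obtain ⟨x, rfl⟩ := mem_spX.mp (spK_sub hy)
    have hx := ht (show x.1 ∈ {x : ℕ → Bool | cx x ∈ spK n} from hy)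
    simp only [Set.mem_iUnion] at hx
    obtain ⟨U, hU, hxU⟩ := hx
    exact ⟨U, ZFSet.mem_range.mpr ⟨e ⟨U, hU⟩, by simp⟩, hxU⟩

theorem spK_mono {m m' : ℕ} (h : m ≤ m') : spK m ⊆ spK m' := by
  intro y hy
  obtain ⟨x, rfl⟩ := mem_spX.mp (spK_sub hy)
  obtain ⟨i, hi, hx⟩ := cx_mem_spK.mp hy
  exact cx_mem_spK.mpr ⟨i, hi.trans h, hx⟩

theorem cpt_sub_spK {K : ZFSet.{0}} (hK : ground.cpt spX spT K) : ∃ m, K ⊆ spK m := by
  have h := goodGround.cpt_bounded (O := spK) (X := spX) (τ := spT)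
    (fun m m' h _ => (g_sub _ _).mpr (spK_mono h)) (fun m _ => spK_opn m)
    (fun y b hb hb' => by
      obtain ⟨x, rfl⟩ := mem_spX.mp (hb hb')
      obtain ⟨i, hi⟩ := x.2
      rw [iSup_Prop_eq]
      exact ⟨i, cx_mem_spK.mpr ⟨i, le_rfl, hi⟩⟩) (b := True) (K := K) (fun _ => hK) trivial
  rw [iSup_Prop_eq] at h
  obtain ⟨m, hm⟩ := h
  exact ⟨m, (g_sub _ _).mp hm⟩

theorem not_cpt_spX : ¬ ground.cpt spX spT spX := by
  intro h
  obtain ⟨m, hm⟩ := cpt_sub_spK h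
  have h1 : cx (fun i => decide (i = m + 1)) ∈ spX := cx_mem_spX.mpr ⟨m + 1, by simp⟩
  obtain ⟨i, hi, h2⟩ := cx_mem_spK.mp (hm h1)
  simp only [decide_eq_true_eq] at h2
  omega

/-- II wins in the ground model by covering the `n`-th compact piece in inning `n`. -/
theorem ground_wins (L E : ZFSet.{0} → ZFSet.{0} → Prop) (ρ : ZFSet.{0} → ZFSet.{0})
    (hL : ∀ U C, U ∈ C → L (ρ U) C) (hE : ∀ U' U, E U' (ρ U) ↔ U' = U) :
    ground.wins L E spX spT := by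
  classical
  let Spec : ZFSet.{0} → ZFSet.{0} → Prop := fun h U => ∃ n C, (nat n).pair C ∈ h ∧
    (∀ i D, (nat i).pair D ∈ h → i ≤ n) ∧ U ∈ C ∧ spK n ⊆ U
  let ch : ZFSet.{0} → ZFSet.{0} := fun h => Classical.epsilon (Spec h)
  let Dom : ZFSet.{0} := (ZFSet.omega.prod spX.powerset.powerset).powerset
  let σ : ZFSet.{0} := ZFSet.range fun h : Dom => (h : ZFSet).pair (ρ (ch h))
  have hσ : ∀ h y, h.pair y ∈ σ ↔ h ∈ Dom ∧ y = ρ (ch h) := by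
    intro h y
    refine ZFSet.mem_range.trans ⟨?_, ?_⟩
    · rintro ⟨h', e⟩
      rw [ZFSet.pair_inj] at e
      rw [← e.1, ← e.2]
      exact ⟨h'.2, rfl⟩
    · rintro ⟨h1, rfl⟩
      exact ⟨⟨h, h1⟩, rfl⟩
  simp only [Str.wins, iSup_Prop_eq, iInf_Prop_eq, himp_iff_imp, inf_Prop_eq, prop_bihimp]
  refine ⟨σ, (g_fn _).mpr fun a b c h1 h2 => ?_, ?_⟩
  · rw [((hσ _ _).mp h1).2, ((hσ _ _).mp h2).2]
  intro (s : ZFSet.{0}) hs
  simp only [Str.play, iSup_Prop_eq, iInf_Prop_eq, himp_iff_imp, inf_Prop_eq] at hs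
  obtain ⟨⟨hfn, hmem⟩, htot⟩ := hs
  rw [g_fn] at hfn
  have hmem' : ∀ z ∈ s, ∃ k C, z = (nat k).pair C ∧ ground.kcov spX spT C := by
    intro z hz
    obtain ⟨n, C, ⟨h1, h2⟩, h3⟩ := hmem z hz
    obtain ⟨k, rfl⟩ := mem_omega.mp h1
    exact ⟨k, C, (g_pr _ _ _).mp h2, h3⟩
  have htot' : ∀ k, ∃ C, (nat k).pair C ∈ s ∧ ground.kcov spX spT C := by
    intro k
    obtain ⟨C, hC⟩ := htot (nat k) (mem_omega.mpr ⟨k, rfl⟩)
    rw [g_app] at hC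
    obtain ⟨k', C', e, h⟩ := hmem' _ hC
    rw [ZFSet.pair_inj] at e
    exact ⟨C, hC, e.2 ▸ h⟩
  choose C hCs hCk using htot'
  let hs : ℕ → ZFSet.{0} := fun k =>
    ZFSet.sep (fun z => ∃ i D : ZFSet.{0}, (i ∈ nat k ∨ i = nat k) ∧ z = i.pair D) s
  have hhs : ∀ k i D, (nat i).pair D ∈ hs k ↔ (nat i).pair D ∈ s ∧ i ≤ k := by
    intro k i D
    refine ZFSet.mem_sep.trans (and_congr Iff.rfl ⟨?_, fun h => ⟨nat i, D, ?_, rfl⟩⟩)
    · rintro ⟨i', D', h1, e⟩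
      rw [ZFSet.pair_inj] at e
      rw [← e.1] at h1
      rcases h1 with h1 | h1
      · obtain ⟨j, hj, e'⟩ := mem_nat.mp h1
        rw [nat_inj e']; exact hj.le
      · exact (nat_inj h1).le
    · rcases h.lt_or_eq with h' | h'
      · exact Or.inl (mem_nat.mpr ⟨i, h', rfl⟩)
      · exact Or.inr (by rw [h'])
  have hDom : ∀ k, hs k ∈ Dom := by
    intro k
    refine ZFSet.mem_powerset.mpr fun z hz => ?_
    obtain ⟨j, D, rfl, hD⟩ := hmem' z (ZFSet.mem_sep.mp hz).1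
    refine ZFSet.pair_mem_prod.mpr ⟨mem_omega.mpr ⟨j, rfl⟩, ZFSet.mem_powerset.mpr fun U hU => ?_⟩
    exact ZFSet.mem_powerset.mpr
      ((g_opn _ _ _).mp ((g_opens _ _ _).mp ((g_kcov _ _ _).mp hD).1 U hU)).1
  have hch : ∀ k, ch (hs k) ∈ C k ∧ spK k ⊆ ch (hs k) := by
    intro k
    obtain ⟨U, hU, hKU⟩ := ((g_kcov _ _ _).mp (hCk k)).2 _ (spK_cpt k)
    have h1 : Spec (hs k) (ch (hs k)) := Classical.epsilon_spec (p := Spec (hs k))
      ⟨U, k, C k, (hhs _ _ _).mpr ⟨hCs k, le_rfl⟩, fun i D h => ((hhs _ _ _).mp h).2, hU, hKU⟩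
    obtain ⟨n, D, h2, h3, h4, h5⟩ := h1
    have h6 := (hhs _ _ _).mp h2
    have h7 : n = k := le_antisymm h6.2 (h3 k (C k) ((hhs _ _ _).mpr ⟨hCs k, le_rfl⟩))
    subst h7
    rw [hfn _ _ _ h6.1 (hCs n)] at h4
    exact ⟨h4, h5⟩
  have hrep : ∀ k y, ground.rep σ s (nat k) y ↔ y = ρ (ch (hs k)) := by
    intro k y
    rw [g_rep, hσ]
    exact ⟨fun h => h.2, fun h => ⟨hDom k, h⟩⟩
  refine ⟨fun n hn => ?_, ZFSet.range fun k : ℕ => ch (hs k), (g_kcov _ _ _).mpr ⟨?_, ?_⟩, ?_⟩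
  · obtain ⟨k, rfl⟩ := mem_omega.mp hn
    exact ⟨C k, ρ (ch (hs k)), ⟨(g_app _ _ _).mpr (hCs k), (hrep _ _).mpr rfl⟩,
      hL _ _ (hch k).1⟩
  · rw [g_opens]
    intro U hU
    obtain ⟨k, rfl⟩ := ZFSet.mem_range.mp hU
    exact (g_opens _ _ _).mp ((g_kcov _ _ _).mp (hCk k)).1 _ (hch k).1
  · intro K hK
    obtain ⟨m, hm⟩ := cpt_sub_spK hK
    exact ⟨ch (hs m), ZFSet.mem_range.mpr ⟨m, rfl⟩, fun z hz => (hch m).2 (hm hz)⟩
  · intro (U : ZFSet.{0})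
    refine ZFSet.mem_range.trans ⟨?_, ?_⟩
    · rintro ⟨k, rfl⟩
      exact ⟨nat k, ρ (ch (hs k)), ⟨mem_omega.mpr ⟨k, rfl⟩, (hrep _ _).mpr rfl⟩,
        (hE _ _).mpr rfl⟩
    · rintro ⟨n, y, ⟨h1, h2⟩, h3⟩
      obtain ⟨k, rfl⟩ := mem_omega.mp h1
      rw [(hrep _ _).mp h2, hE] at h3
      exact ⟨k, h3.symm⟩

theorem ground_winsR : ground.winsR spX spT :=
  ground_wins _ _ id (fun _ _ h => h) fun _ _ => Iff.rfl

theorem ground_winsM : ground.winsM spX spT := by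
  refine ground_wins _ _ (fun U => ZFSet.range fun _ : Fin 1 => U) (fun U C h => ⟨?_, ?_⟩) ?_
  · refine (g_sub _ _).mpr fun z hz => ?_
    obtain ⟨_, rfl⟩ := ZFSet.mem_range.mp hz
    exact h
  · exact g_fin_range _
  · intro U' U
    exact ZFSet.mem_range.trans ⟨fun ⟨_, h⟩ => h.symm, fun h => ⟨0, h.symm⟩⟩

end Pool.Agent.Lib.MP_e0f6ac_lc
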