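import Pool.Agent.Lib.MP_e0f6ac_lc.Basic

/-!
A complete Boolean algebra with a countable dense set is strongly proper for stationarily many
models.
-/

open FirstOrder Cardinal

namespace Pool.Agent.Lib.MP_e0f6ac_lc

theorem exists_hereditarily (x : ZFSet.{0}) :
    ∃ θ₀ : Cardinal.{0}, ∀ θ, θ₀ ≤ θ → x.Hereditarily fun y => y.card < θ := by
  induction x using ZFSet.inductionOn with
  | h x ih =>
    choose f hf using ih
    let g : Shrink.{0} x → Cardinal.{0} := fun i =>
      f ((equivShrink x).symm i).1 ((equivShrink x).symm i).2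
    refine ⟨max (Order.succ x.card) (⨆ i, g i), fun θ hθ => ?_⟩
    rw [ZFSet.hereditarily_iff]
    refine ⟨(Order.lt_succ _).trans_le ((le_max_left _ _).trans hθ), fun y hy => hf y hy θ ?_⟩
    refine le_trans ?_ ((le_max_right _ _).trans hθ)
    have h := le_ciSup (f := g) Cardinal.bddAbove_of_small (equivShrink x ⟨y, hy⟩)
    simpa [g] using h

/-- Every club contains an elementary substructure that includes a given countable set. -/
theorem exists_elementary_mem_club {α : Type 1} [Language.graph.Structure α] [Nonempty α]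
    {C : Set (Set α)} (hC : Club C) {A : Set α} (hA : A.Countable) :
    ∃ M : Language.graph.ElementarySubstructure α, (M : Set α) ∈ C ∧ A ⊆ M := by
  let L := Language.graph.sum Language.graph.skolem₁
  have hL : Countable (Σ n, L.Functions n) := by
    rw [← Cardinal.mk_le_aleph0_iff]
    refine Language.card_functions_sum_skolem₁_le.trans (max_le le_rfl ?_)
    simp only [Language.card, Cardinal.mk_le_aleph0_iff]
    infer_instance
  have hcl : ∀ s : Set α, s.Countable →
      ((Language.Substructure.closure L s : L.Substructure α) : Set α).Countable := by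
    intro s hs
    exact Set.countable_coe_iff.mp (Set.Countable.substructure_closure L hs)
  choose! nxt hnxt using hC.2.1
  let f : ℕ → Set α := fun n =>
    Nat.rec (nxt A) (fun _ s => nxt (Language.Substructure.closure L s)) n
  have hf : ∀ n, f (n + 1) = nxt (Language.Substructure.closure L (f n)) := fun _ => rfl
  have hfC : ∀ n, f n ∈ C := by
    intro n
    induction n with
    | zero => exact (hnxt A hA).1
    | succ n ih => rw [hf]; exact (hnxt _ (hcl _ (hC.1 _ ih))).1
  have hstep : ∀ n, ((Language.Substructure.closure L (f n) : L.Substructure α) : Set α) ⊆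
      f (n + 1) := fun n => (hnxt _ (hcl _ (hC.1 _ (hfC n)))).2
  have hmono : Monotone f :=
    monotone_nat_of_le_succ fun n => Language.Substructure.subset_closure.trans (hstep n)
  let S : ℕ → L.Substructure α := fun n => Language.Substructure.closure L (f n)
  have hS : Monotone S := fun m n h => Language.Substructure.closure_mono (hmono h)
  have hU : ((⨆ n, S n : L.Substructure α) : Set α) = ⋃ n, f n := by
    ext x
    rw [SetLike.mem_coe, Language.Substructure.mem_iSup_of_directed hS.directed_le,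
      Set.mem_iUnion]
    exact ⟨fun ⟨n, hn⟩ => ⟨n + 1, hstep n hn⟩,
      fun ⟨n, hn⟩ => ⟨n, Language.Substructure.subset_closure hn⟩⟩
  refine ⟨(⨆ n, S n).elementarySkolem₁Reduct, ?_, ?_⟩
  · have : (((⨆ n, S n).elementarySkolem₁Reduct : Language.graph.ElementarySubstructure α) :
        Set α) = ⋃ n, f n := hU
    rw [this]
    exact hC.2.2 f hmono hfC
  · have : (((⨆ n, S n).elementarySkolem₁Reduct : Language.graph.ElementarySubstructure α) :
        Set α) = ⋃ n, f n := hU
    rw [this]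
    exact (hnxt A hA).2.trans (Set.subset_iUnion f 0)

theorem stronglyProper_of_dense {B : Type} [CompleteBooleanAlgebra B] (D : ℕ → B)
    (hD : ∀ b, b ≠ ⊥ → ∃ i, D i ≠ ⊥ ∧ D i ≤ b) : StronglyProper B := by
  intro e
  let P : ZFSet.{0} := ZFSet.range fun p : {p : B // p ≠ ⊥} => e p.1
  let R : ZFSet.{0} :=
    ZFSet.range fun pq : {pq : B × B // pq.1 ≠ ⊥ ∧ pq.1 ≤ pq.2} => (e pq.1.1).pair (e pq.1.2)
  obtain ⟨θ₁, h₁⟩ := exists_hereditarily P
  obtain ⟨θ₂, h₂⟩ := exists_hereditarily R
  refine ⟨max θ₁ θ₂, fun θ _ hθ C hC => ?_⟩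
  have hP := h₁ θ ((le_max_left _ _).trans hθ)
  have hR := h₂ θ ((le_max_right _ _).trans hθ)
  let P' : H θ := ⟨P, hP⟩
  let R' : H θ := ⟨R, hR⟩
  let el : {p : B // p ≠ ⊥} → H θ := fun p => ⟨e p.1, hP.mem (ZFSet.mem_range.mpr ⟨p, rfl⟩)⟩
  let d : {i : ℕ // D i ≠ ⊥} → H θ := fun i => el ⟨D i.1, i.2⟩
  have : Nonempty (H θ) := ⟨P'⟩
  have hA : (insert P' (insert R' (Set.range d))).Countable :=
    ((Set.countable_range d).insert _).insert _
  obtain ⟨M, hMC, hAM⟩ := exists_elementary_mem_club hC hA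
  refine ⟨M, hMC, ⟨P', hAM (by simp), fun x => ?_⟩, ⟨R', hAM (by simp), fun x => ?_⟩, ?_⟩
  · refine ZFSet.mem_range.trans ⟨?_, ?_⟩
    · rintro ⟨p, rfl⟩; exact ⟨p.1, p.2, rfl⟩
    · rintro ⟨p, hp, rfl⟩; exact ⟨⟨p, hp⟩, rfl⟩
  · refine ZFSet.mem_range.trans ⟨?_, ?_⟩
    · rintro ⟨pq, rfl⟩; exact ⟨pq.1.1, pq.1.2, pq.2.1, pq.2.2, rfl⟩
    · rintro ⟨p, q, hp, hpq, rfl⟩; exact ⟨⟨(p, q), hp, hpq⟩, rfl⟩
  · intro p hp _
    refine ⟨p, hp, le_rfl, fun r hr _ => ?_⟩
    obtain ⟨i, hi, hir⟩ := hD r hr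
    refine ⟨D i, hi, ⟨d ⟨i, hi⟩, hAM (by simp), rfl⟩, fun r'' hr'' hle _ => ?_⟩
    rw [inf_eq_left.mpr (hle.trans hir)]
    exact hr''

end Pool.Agent.Lib.MP_e0f6ac_lc
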