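import Pool.Agent.Lib.MP_e0f6ac_lc.Basic

/-!
Boolean-valued topology: finite subfamilies of chains, chains that are `k`-covers,
compactness of points, sequences of moves and their restrictions.
-/

open scoped symmDiff

namespace Pool.Agent.Lib.MP_e0f6ac_lc

variable {B : Type} [CompleteBooleanAlgebra B]

/-- `U` is open. -/
def Str.opn (S : Str B) (X τ U : S.N) : B :=
  S.sub U X ⊓ ⨅ x, S.mem x U ⇨ ⨆ V, S.mem V τ ⊓ S.mem x V ⊓ S.sub V U

theorem Str.opens_eq (S : Str B) (X τ C : S.N) :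
    S.opens X τ C = ⨅ U, S.mem U C ⇨ S.opn X τ U := rfl

namespace Good

variable {S : Str B} (G : Good S)
include G

theorem opn_congr {b : B} {X τ U U' : S.N} (h : b ≤ S.opn X τ U) (e : b ≤ S.eq U U') :
    b ≤ S.opn X τ U' := by
  refine le_inf (subT (G.sub_of_eq (G.sy e)) (l1 h)) (le_iInf fun x => impI fun b1 hb1 hx => ?_)
  have h1 := mp (allE (hb1.trans (l2 h)) x) (G.mr (G.sy (hb1.trans e)) hx)
  refine exE h1 fun V b2 hb2 hV => exI V (le_inf (l1 hV) ?_)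
  exact subT (l2 hV) (G.sub_of_eq ((hb2.trans hb1).trans e))

/-- The name of the family `{O m : m ∈ ω}`. -/
def fam (O : ℕ → S.N) : S.N := G.mkN ℕ O fun _ => ⊤

theorem famI {b : B} (O : ℕ → S.N) (m : ℕ) : b ≤ S.mem (O m) (G.fam O) :=
  G.mkI m le_top (G.rf _)

theorem famE {b c : B} {O : ℕ → S.N} {U : S.N} (h : b ≤ S.mem U (G.fam O))
    (k : ∀ m b', b' ≤ b → b' ≤ S.eq U (O m) → b' ≤ c) : b ≤ c :=
  G.mkE h fun m b' hb _ hm => k m b' hb hm

/-- A finite subfamily of an increasing chain is bounded. -/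
theorem fin_bounded {O : ℕ → S.N} (hO : ∀ m m', m ≤ m' → ⊤ ≤ S.sub (O m) (O m'))
    {b : B} {F : S.N} (hF : b ≤ S.sub F (G.fam O)) (hfin : b ≤ S.fin F) :
    b ≤ ⨆ m, ⨅ U, S.mem U F ⇨ S.sub U (O m) := by
  refine exE hfin fun n b1 hb1 h1 => exE h1 fun f b2 hb2 h2 => ?_
  refine G.omE (l1 (l1 h2)) fun k b3 hb3 hn => ?_
  have hb : b3 ≤ b := hb3.trans (hb2.trans hb1)
  have hfn : b3 ≤ S.fn f := hb3.trans (l2 (l1 h2))
  have key : ∀ j : ℕ, b3 ≤ ⨆ m, ⨅ U, ⨅ i, ⨅ _ : i < j,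
      S.mem U F ⊓ S.app f (G.num i) U ⇨ S.sub U (O m) := by
    intro j
    induction j with
    | zero =>
      exact exI 0 (le_iInf fun U => le_iInf fun i => le_iInf fun hi => absurd hi (Nat.not_lt_zero i))
    | succ j ih =>
      refine exE ih fun m b4 hb4 h4 => ?_
      have hem : b4 ≤ (⨆ U, S.mem U F ⊓ S.app f (G.num j) U) ⊔
          (⨆ U, S.mem U F ⊓ S.app f (G.num j) U)ᶜ := by
        rw [sup_compl_eq_top]; exact le_top
      refine orE hem (fun b5 hb5 h5 => ?_) (fun b5 hb5 h5 => ?_)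
      · refine exE h5 fun U0 b6 hb6 h6 => ?_
        have hb6' : b6 ≤ b3 := hb6.trans (hb5.trans hb4)
        refine G.famE (subE (hb6'.trans (hb.trans hF)) (l1 h6)) fun m0 b7 hb7 h7 => ?_
        refine exI (max m m0) (le_iInf fun U => le_iInf fun i => le_iInf fun hi =>
          impI fun b8 hb8 h8 => ?_)
        rcases Nat.lt_succ_iff_lt_or_eq.mp hi with hi' | rfl
        · have h9 : b8 ≤ b4 := hb8.trans (hb7.trans (hb6.trans hb5))
          have h10 := mp (allE (allE (allE (h9.trans h4) U) i) hi') h8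
          exact subT h10 (le_top.trans (hO _ _ (le_max_left _ _)))
        · have h9 : b8 ≤ S.eq U U0 :=
            fnE ((hb8.trans hb7).trans (hb6'.trans hfn)) (l2 h8) ((hb8.trans hb7).trans (l2 h6))
          exact subT (G.sub_of_eq (G.tr h9 (hb8.trans h7)))
            (le_top.trans (hO _ _ (le_max_right _ _)))
      · refine exI m (le_iInf fun U => le_iInf fun i => le_iInf fun hi =>
          impI fun b8 hb8 h8 => ?_)
        rcases Nat.lt_succ_iff_lt_or_eq.mp hi with hi' | rfl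
        · exact mp (allE (allE (allE ((hb8.trans hb5).trans h4) U) i) hi') h8
        · exact absurdB (exI U h8) (hb8.trans h5)
  refine exE (key k) fun m b4 hb4 h4 => exI m (le_iInf fun U => impI fun b5 hb5 hU => ?_)
  have hb53 : b5 ≤ b3 := hb5.trans hb4
  have h6 := mp (allE ((hb53.trans hb3).trans (l2 h2)) U) hU
  refine exE h6 fun i b6 hb6 h7 => ?_
  have h8 : b6 ≤ S.mem i (G.num k) := G.mr ((hb6.trans hb53).trans hn) (l1 h7)
  refine G.numE h8 fun j b7 hj hb7 h9 => ?_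
  have h10 : b7 ≤ S.app f (G.num j) U := G.app_congr (hb7.trans (l2 h7)) h9 (G.rf _)
  exact mp (allE (allE (allE ((hb7.trans (hb6.trans hb5)).trans h4) U) j) hj)
    (le_inf ((hb7.trans hb6).trans hU) h10)

theorem opens_fam {O : ℕ → S.N} {X τ : S.N} (hop : ∀ m, ⊤ ≤ S.opn X τ (O m)) {b : B} :
    b ≤ S.opens X τ (G.fam O) := by
  rw [Str.opens_eq]
  exact le_iInf fun U => impI fun b1 _ hU => G.famE hU fun m b2 _ hm =>
    G.opn_congr (le_top.trans (hop m)) (G.sy hm)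

/-- A compact set is contained in a member of an increasing open cover. -/
theorem cpt_bounded {O : ℕ → S.N} {X τ : S.N} (hO : ∀ m m', m ≤ m' → ⊤ ≤ S.sub (O m) (O m'))
    (hop : ∀ m, ⊤ ≤ S.opn X τ (O m))
    (hcov : ∀ x b, b ≤ S.mem x X → b ≤ ⨆ m, S.mem x (O m)) {b : B} {K : S.N}
    (hK : b ≤ S.cpt X τ K) : b ≤ ⨆ m, S.sub K (O m) := by
  have h1 : b ≤ S.cov (G.fam O) K := by
    refine le_iInf fun x => impI fun b1 hb1 hx => ?_
    refine exE (hcov x b1 (subE (hb1.trans (l1 hK)) hx)) fun m b2 _ hm => ?_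
    exact exI (O m) (le_inf (G.famI O m) hm)
  have h2 := mp (allE (l2 hK) (G.fam O)) (le_inf (G.opens_fam hop) h1)
  refine exE h2 fun F b1 hb1 hF => ?_
  refine exE (G.fin_bounded hO (l1 (l1 hF)) (l2 (l1 hF))) fun m b2 hb2 hm => exI m ?_
  refine subI fun x b3 hb3 hx => ?_
  refine exE (mp (allE ((hb3.trans hb2).trans (l2 hF)) x) hx) fun U b4 hb4 hU => ?_
  exact subE (mp (allE ((hb4.trans hb3).trans hm) U) (l1 hU)) (l2 hU)

theorem kcov_fam {O : ℕ → S.N} {X τ : S.N} (hO : ∀ m m', m ≤ m' → ⊤ ≤ S.sub (O m) (O m'))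
    (hop : ∀ m, ⊤ ≤ S.opn X τ (O m))
    (hcov : ∀ x b, b ≤ S.mem x X → b ≤ ⨆ m, S.mem x (O m)) {b : B} :
    b ≤ S.kcov X τ (G.fam O) := by
  refine le_inf (G.opens_fam hop) (le_iInf fun K => impI fun b1 _ hK => ?_)
  exact exE (G.cpt_bounded hO hop hcov hK) fun m b2 _ hm => exI (O m) (le_inf (G.famI O m) hm)

/-- The name of a singleton. -/
def sgl (y : S.N) : S.N := G.mkN Unit (fun _ => y) fun _ => ⊤

theorem sglI {b : B} (y : S.N) : b ≤ S.mem y (G.sgl y) := G.mkI () le_top (G.rf _)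

theorem sglE {b : B} {x y : S.N} (h : b ≤ S.mem x (G.sgl y)) : b ≤ S.eq x y :=
  G.mkE h fun _ _ _ _ hj => hj

theorem fin_sgl {b : B} (y : S.N) : b ≤ S.fin (G.sgl y) := by
  refine exI (G.num 1) (exI (G.mkN Unit (fun _ => G.prN (G.num 0) y) fun _ => ⊤)
    (le_inf (le_inf (G.omI 1) ?_) ?_))
  · refine le_iInf fun a => le_iInf fun c => le_iInf fun c' => impI fun b1 _ h => ?_
    refine G.appE (A := fun _ : Unit => G.num 0) (C := fun _ => y) (l1 h)
      fun _ b2 hb2 _ _ h1 => ?_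
    refine G.appE (A := fun _ : Unit => G.num 0) (C := fun _ => y) (hb2.trans (l2 h))
      fun _ b3 hb3 _ _ h2 => ?_
    exact G.tr (hb3.trans h1) (G.sy h2)
  · refine le_iInf fun x => impI fun b1 _ hx => exI (G.num 0) (le_inf (G.numI one_pos) ?_)
    exact G.app_congr (G.appI (A := fun _ : Unit => G.num 0) (C := fun _ => y) () le_top)
      (G.rf _) (G.sy (G.sglE hx))

theorem cpt_sgl {b : B} {X τ y : S.N} (hy : b ≤ S.mem y X) : b ≤ S.cpt X τ (G.sgl y) := by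
  refine le_inf (subI fun z b1 hb1 hz => G.ml (G.sy (G.sglE hz)) (hb1.trans hy)) ?_
  refine le_iInf fun C => impI fun b1 _ hC => ?_
  refine exE (mp (allE (l2 hC) y) (G.sglI y)) fun U b2 _ hU => ?_
  refine exI (G.sgl U) (le_inf (le_inf ?_ (G.fin_sgl U)) ?_)
  · exact subI fun z b3 hb3 hz => G.ml (G.sy (G.sglE hz)) (hb3.trans (l1 hU))
  · refine le_iInf fun z => impI fun b3 hb3 hz => exI U (le_inf (G.sglI U) ?_)
    exact G.ml (G.sy (G.sglE hz)) (hb3.trans (l2 hU))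

/-! Sequences of moves -/

/-- The name of the sequence whose `n`-th term is `C p` with value `w n p`. -/
noncomputable def seqN (C : ℕ → S.N) (w : ℕ → ℕ → B) : S.N :=
  G.mkN (ℕ × ℕ) (fun j => G.prN (G.num j.1) (C j.2)) fun j => w j.1 j.2

/-- The name of the finite sequence `C (u 0), …, C (u k)`. -/
noncomputable def hist (C : ℕ → S.N) (u : ℕ → ℕ) (k : ℕ) : S.N :=
  G.mkN (Fin (k + 1)) (fun i => G.prN (G.num i) (C (u i))) fun _ => ⊤

theorem hist_congr (C : ℕ → S.N) {u u' : ℕ → ℕ} {k : ℕ} (h : ∀ j, j ≤ k → u j = u' j) :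
    G.hist C u k = G.hist C u' k := by
  unfold hist
  congr 1
  funext i
  rw [h i (Nat.lt_succ_iff.mp i.2)]

theorem play_seqN {X τ : S.N} {C : ℕ → S.N} (hC : ∀ p, ⊤ ≤ S.kcov X τ (C p))
    {w : ℕ → ℕ → B} (hw : ∀ n p p', p ≠ p' → w n p ⊓ w n p' = ⊥) {b : B}
    (hb : ∀ n, b ≤ ⨆ p, w n p) : b ≤ S.play X τ (G.seqN C w) := by
  refine le_inf (le_inf ?_ ?_) ?_
  · refine le_iInf fun a => le_iInf fun c => le_iInf fun c' => impI fun b1 _ h => ?_
    refine G.appE (A := fun j : ℕ × ℕ => G.num j.1) (C := fun j => C j.2) (l1 h)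
      fun j b2 hb2 hv ha h1 => ?_
    refine G.appE (A := fun j : ℕ × ℕ => G.num j.1) (C := fun j => C j.2) (hb2.trans (l2 h))
      fun j' b3 hb3 hv' ha' h2 => ?_
    refine G.num_eqE (G.tr (G.sy (hb3.trans ha)) ha') fun e => ?_
    by_cases e' : j.2 = j'.2
    · rw [← e'] at h2
      exact G.tr (hb3.trans h1) (G.sy h2)
    · have h3 : b3 ≤ w j.1 j.2 ⊓ w j.1 j'.2 := le_inf (hb3.trans hv) (e ▸ hv')
      rw [hw _ _ _ e'] at h3
      exact h3.trans bot_le
  · refine le_iInf fun z => impI fun b1 _ hz => G.mkE hz fun j b2 _ _ hj => ?_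
    exact exI (G.num j.1) (exI (C j.2) (le_inf (le_inf (G.omI _)
      (G.pr_congr (G.pr_prN _ _) (G.sy hj) (G.rf _) (G.rf _))) (le_top.trans (hC _))))
  · refine le_iInf fun n => impI fun b1 hb1 hn => G.omE hn fun k b2 hb2 hk => ?_
    refine exE ((hb2.trans hb1).trans (hb k)) fun p b3 hb3 hp => exI (C p) ?_
    exact G.app_congr (G.appI (A := fun j : ℕ × ℕ => G.num j.1) (C := fun j => C j.2) (k, p) hp)
      (G.sy (hb3.trans hk)) (G.rf _)

theorem app_seqN {C : ℕ → S.N} {w : ℕ → ℕ → B} (hw : ∀ n p p', p ≠ p' → w n p ⊓ w n p' = ⊥)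
    {b : B} {k p : ℕ} {n D : S.N} (hn : b ≤ S.eq n (G.num k)) (hp : b ≤ w k p)
    (h : b ≤ S.app (G.seqN C w) n D) : b ≤ S.eq D (C p) := by
  refine G.appE (A := fun j : ℕ × ℕ => G.num j.1) (C := fun j => C j.2) h
    fun j b2 hb2 hv ha h1 => ?_
  refine G.num_eqE (G.tr (G.sy (hb2.trans hn)) ha) fun e => ?_
  by_cases e' : p = j.2
  · rw [e']; exact h1
  · have h3 : b2 ≤ w k p ⊓ w k j.2 := le_inf (hb2.trans hp) (e ▸ hv)
    rw [hw _ _ _ e'] at h3
    exact h3.trans bot_le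

theorem rep_seqN {C : ℕ → S.N} {w : ℕ → ℕ → B} (hw : ∀ n p p', p ≠ p' → w n p ⊓ w n p' = ⊥)
    {b : B} {k : ℕ} {u : ℕ → ℕ} {σ n y : S.N} (hn : b ≤ S.eq n (G.num k))
    (hu : ∀ i, i ≤ k → b ≤ w i (u i)) (h : b ≤ S.rep σ (G.seqN C w) n y) :
    b ≤ S.app σ (G.hist C u k) y := by
  refine exE h fun t b1 hb1 ht => G.app_congr (l2 ht) (G.extI ?_ ?_) (G.rf _)
  · refine subI fun z b2 hb2 hz => ?_
    have h1 := iffE1 (allE (hb2.trans (l1 ht)) z) hz
    refine G.mkE (l1 h1) fun j b3 hb3 hv hj => ?_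
    refine exE (hb3.trans (l2 h1)) fun i b4 hb4 h2 => exE h2 fun D b5 hb5 h3 => ?_
    have hb53 : b5 ≤ b3 := hb5.trans hb4
    have hb5b : b5 ≤ b := (hb53.trans hb3).trans (hb2.trans hb1)
    have h4 : b5 ≤ S.pr z (G.num j.1) (C j.2) :=
      G.pr_congr (G.pr_prN _ _) (G.sy (hb53.trans hj)) (G.rf _) (G.rf _)
    have h5 : b5 ≤ S.eq i (G.num j.1) := G.pr_inj1 (l2 h3) h4
    have key : ∀ b6, b6 ≤ b5 → j.1 ≤ k → b6 ≤ S.mem z (G.hist C u k) := by
      intro b6 hb6 hjk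
      by_cases e' : u j.1 = j.2
      · refine G.mkI (⟨j.1, Nat.lt_succ_of_le hjk⟩ : Fin (k + 1)) le_top ?_
        simp only [e']
        exact (hb6.trans hb53).trans hj
      · have h7 : b6 ≤ w j.1 (u j.1) ⊓ w j.1 j.2 :=
          le_inf ((hb6.trans hb5b).trans (hu _ hjk)) ((hb6.trans hb53).trans hv)
        rw [hw _ _ _ e'] at h7
        exact h7.trans bot_le
    refine orE (l1 h3) (fun b6 hb6 h6 => ?_) (fun b6 hb6 h6 => ?_)
    · have h7 : b6 ≤ S.mem (G.num j.1) (G.num k) :=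
        G.mr ((hb6.trans hb5b).trans hn) (G.ml (hb6.trans h5) h6)
      refine G.numE h7 fun j' b7 hj' hb7 h8 => G.num_eqE h8 fun e => ?_
      exact key b7 (hb7.trans hb6) (e ▸ hj'.le)
    · have h7 : b6 ≤ S.eq (G.num j.1) (G.num k) :=
        G.tr (G.sy (hb6.trans h5)) (G.tr h6 ((hb6.trans hb5b).trans hn))
      exact G.num_eqE h7 fun e => key b6 hb6 e.le
  · refine subI fun z b2 hb2 hz => iffE2 (allE (hb2.trans (l1 ht)) z) ?_
    refine G.mkE hz fun i b3 hb3 _ hi => ?_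
    have hb3b : b3 ≤ b := hb3.trans (hb2.trans hb1)
    have hik : (i : ℕ) ≤ k := Nat.lt_succ_iff.mp i.2
    refine le_inf (G.mkI ((i : ℕ), u i) (hb3b.trans (hu _ hik)) hi) ?_
    refine exI (G.num i) (exI (C (u i)) (le_inf ?_
      (G.pr_congr (G.pr_prN _ _) (G.sy hi) (G.rf _) (G.rf _))))
    rcases hik.lt_or_eq with h1 | h1
    · exact le_sup_of_le_left (G.mr (G.sy (hb3b.trans hn)) (G.numI h1))
    · rw [h1]; exact le_sup_of_le_right (G.sy (hb3b.trans hn))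

end Good

end Pool.Agent.Lib.MP_e0f6ac_lc
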